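import Pool.Agent.Lib_MP_f5471b_aa.Fibre

/-!
# MP_f5471b_nt: counting in a box
-/

namespace LangForms

open NumberField

/-- The algebraic integer with coordinates `u` in the basis `ω`. -/
noncomputable def lin {K ι : Type} [Field K] [Fintype ι] (ω : Module.Basis ι ℤ (𝓞 K)) (u : ι → ℤ) : 𝓞 K :=
  ∑ i, u i • ω i

section

variable {K ι : Type} [Field K] [NumberField K] [Fintype ι] (ω : Module.Basis ι ℤ (𝓞 K))

theorem lin_add (u v : ι → ℤ) : lin ω (u + v) = lin ω u + lin ω v := by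
  simp [lin, add_smul, Finset.sum_add_distrib]

theorem lin_single [DecidableEq ι] (i : ι) (n : ℤ) :
    lin ω (Pi.single i n) = (n : 𝓞 K) * ω i := by
  unfold lin
  rw [Finset.sum_eq_single i]
  · rw [Pi.single_eq_same, zsmul_eq_mul]
  · intro j _ hj
    rw [Pi.single_eq_of_ne hj, zero_smul]
  · intro h
    exact absurd (Finset.mem_univ i) h

theorem lin_eq_zero {u : ι → ℤ} (h : lin ω u = 0) : u = 0 := by
  funext i
  exact Fintype.linearIndependent_iff.1 ω.linearIndependent u h i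

/-- A bound for the conjugates of the basis. -/
noncomputable def bdM : ℝ := 1 + ∑ v : InfinitePlace K, ∑ i, v (ω i : K)

theorem one_le_bdM : 1 ≤ bdM ω := by
  unfold bdM
  have : 0 ≤ ∑ v : InfinitePlace K, ∑ i, v (ω i : K) :=
    Finset.sum_nonneg fun v _ => Finset.sum_nonneg fun i _ => apply_nonneg v _
  linarith

theorem lin_val {N : ℝ} (hN : 0 ≤ N) (u : ι → ℤ) (hu : ∀ i, |(u i : ℝ)| ≤ N)
    (v : InfinitePlace K) : v (lin ω u : K) ≤ bdM ω * N := by
  have h1 : ((lin ω u : 𝓞 K) : K) = ∑ i, (u i : K) * (ω i : K) := by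
    unfold lin
    change algebraMap (𝓞 K) K (∑ i, u i • ω i) = _
    rw [map_sum]
    apply Finset.sum_congr rfl
    intro i _
    rw [zsmul_eq_mul, map_mul, map_intCast]
  have hint : ∀ n : ℤ, v (n : K) = |(n : ℝ)| := by
    intro n
    rw [← InfinitePlace.norm_embedding_eq, map_intCast, Complex.norm_intCast]
  have h2 : ∑ i, v (ω i : K) ≤ bdM ω := by
    unfold bdM
    have h3 : ∑ i, v (ω i : K) ≤ ∑ v : InfinitePlace K, ∑ i, v (ω i : K) :=
      Finset.single_le_sum (f := fun v : InfinitePlace K => ∑ i, v (ω i : K))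
        (fun v _ => Finset.sum_nonneg fun i _ => apply_nonneg v _) (Finset.mem_univ v)
    linarith
  rw [h1]
  calc v (∑ i, (u i : K) * (ω i : K)) ≤ ∑ i, v ((u i : K) * (ω i : K)) := v.1.sum_le _ _
    _ = ∑ i, |(u i : ℝ)| * v (ω i : K) := by
        apply Finset.sum_congr rfl
        intro i _
        rw [map_mul, hint]
    _ ≤ ∑ i, N * v (ω i : K) := Finset.sum_le_sum fun i _ =>
        mul_le_mul_of_nonneg_right (hu i) (apply_nonneg v _)
    _ = N * ∑ i, v (ω i : K) := by rw [Finset.mul_sum]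
    _ ≤ N * bdM ω := mul_le_mul_of_nonneg_left h2 hN
    _ = bdM ω * N := mul_comm _ _

end

theorem norm_natAbs_le {K : Type} [Field K] [NumberField K] (x : 𝓞 K) {B : ℝ}
    (h : ∀ v : InfinitePlace K, v (x : K) ≤ B) :
    ((Algebra.norm ℤ x).natAbs : ℝ) ≤ B ^ (Module.finrank ℚ K) := by
  have h1 : ((Algebra.norm ℤ x).natAbs : ℝ) = ((|Algebra.norm ℚ (x : K)| : ℚ) : ℝ) := by
    rw [← Algebra.coe_norm_int, Nat.cast_natAbs]
    push_cast
    rfl
  rw [h1, ← InfinitePlace.prod_eq_abs_norm]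
  rw [← InfinitePlace.sum_mult_eq, ← Finset.prod_pow_eq_pow_sum]
  exact Finset.prod_le_prod (fun v _ => pow_nonneg (apply_nonneg v _) _)
    fun v _ => pow_le_pow_left₀ (apply_nonneg v _) (h v) _

theorem denJ_val {K : Type} [Field K] [NumberField K] {M X : ℝ} (hM : 1 ≤ M) (hX : 0 ≤ X)
    (a b : 𝓞 K) (v : InfinitePlace K) (ha : v (a : K) ≤ M * X ^ 2) (hb : v (b : K) ≤ M * X ^ 3) :
    v (denJ a b : K) ≤ 31 * M ^ 3 * X ^ 6 := by
  have hden : ((denJ a b : 𝓞 K) : K) = 4 * (a : K) ^ 3 + 27 * (b : K) ^ 2 := by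
    change algebraMap (𝓞 K) K (4 * a ^ 3 + 27 * b ^ 2) = 4 * (algebraMap (𝓞 K) K a) ^ 3 +
      27 * (algebraMap (𝓞 K) K b) ^ 2
    rw [map_add, map_mul, map_mul, map_pow, map_pow, map_ofNat, map_ofNat]
  have hvnat : ∀ n : ℕ, v (n : K) = n := by
    intro n
    rw [← InfinitePlace.norm_embedding_eq, map_natCast, Complex.norm_natCast]
  rw [hden]
  have h4 : v (4 : K) = 4 := by
    have := hvnat 4
    push_cast at this
    exact this
  have h27 : v (27 : K) = 27 := by
    have := hvnat 27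
    push_cast at this
    exact this
  have h2 : v (a : K) ^ 3 ≤ (M * X ^ 2) ^ 3 := pow_le_pow_left₀ (apply_nonneg v _) ha 3
  have h3 : v (b : K) ^ 2 ≤ (M * X ^ 3) ^ 2 := pow_le_pow_left₀ (apply_nonneg v _) hb 2
  have h5 : M ^ 2 * X ^ 6 ≤ M ^ 3 * X ^ 6 :=
    mul_le_mul_of_nonneg_right (pow_le_pow_right₀ hM (by norm_num)) (by positivity)
  calc v (4 * (a : K) ^ 3 + 27 * (b : K) ^ 2) ≤ v (4 * (a : K) ^ 3) + v (27 * (b : K) ^ 2) :=
        v.1.add_le _ _
    _ = 4 * v (a : K) ^ 3 + 27 * v (b : K) ^ 2 := by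
        rw [map_mul, map_mul, map_pow, map_pow, h4, h27]
    _ ≤ 4 * (M * X ^ 2) ^ 3 + 27 * (M * X ^ 3) ^ 2 := by linarith
    _ = 4 * (M ^ 3 * X ^ 6) + 27 * (M ^ 2 * X ^ 6) := by ring
    _ ≤ 31 * M ^ 3 * X ^ 6 := by linarith

/-- The box of the vectors with coordinates at most `N`. -/
noncomputable def box (ι : Type) [Fintype ι] [DecidableEq ι] (N : ℕ) : Finset (ι → ℤ) :=
  Fintype.piFinset fun _ => Finset.Icc (-(N : ℤ)) N

theorem mem_box {ι : Type} [Fintype ι] [DecidableEq ι] {N : ℕ} {u : ι → ℤ} :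
    u ∈ box ι N ↔ ∀ i, |u i| ≤ N := by
  unfold box
  rw [Fintype.mem_piFinset]
  refine forall_congr' fun i => ?_
  rw [Finset.mem_Icc, abs_le]

theorem card_box {ι : Type} [Fintype ι] [DecidableEq ι] (N : ℕ) :
    (box ι N).card = (2 * N + 1) ^ Fintype.card ι := by
  unfold box
  rw [Fintype.card_piFinset, Finset.prod_const, Int.card_Icc, Finset.card_univ]
  congr 1
  omega

/-- The vectors of the box with coordinate `0` at `i₀`. -/
theorem card_box_zero {ι : Type} [Fintype ι] [DecidableEq ι] (N : ℕ) (i₀ : ι) :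
    ((box ι N).filter (fun v => v i₀ = 0)).card * (2 * N + 1) ≤ (2 * N + 1) ^ Fintype.card ι := by
  classical
  have h : (box ι N).filter (fun v => v i₀ = 0) ⊆
      Fintype.piFinset fun i => if i = i₀ then {0} else Finset.Icc (-(N : ℤ)) N := by
    intro v hv
    rw [Finset.mem_filter] at hv
    rw [Fintype.mem_piFinset]
    intro i
    by_cases hi : i = i₀
    · subst hi
      rw [if_pos rfl, Finset.mem_singleton]
      exact hv.2
    · rw [if_neg hi]
      exact (Fintype.mem_piFinset.1 hv.1) i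
  have h1 : (Fintype.piFinset fun i => if i = i₀ then {0} else Finset.Icc (-(N : ℤ)) N).card *
      (2 * N + 1) = (2 * N + 1) ^ Fintype.card ι := by
    rw [Fintype.card_piFinset, ← Finset.mul_prod_erase _ _ (Finset.mem_univ i₀)]
    rw [if_pos rfl, Finset.card_singleton, one_mul]
    have h2 : ∀ i ∈ Finset.univ.erase i₀,
        (if i = i₀ then ({0} : Finset ℤ) else Finset.Icc (-(N : ℤ)) N).card = 2 * N + 1 := by
      intro i hi
      rw [if_neg (Finset.ne_of_mem_erase hi), Int.card_Icc]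
      omega
    rw [Finset.prod_congr rfl h2, Finset.prod_const, ← pow_succ,
      Finset.card_erase_of_mem (Finset.mem_univ i₀), Finset.card_univ]
    congr 1
    have : 0 < Fintype.card ι := Fintype.card_pos_iff.2 ⟨i₀⟩
    omega
  calc _ ≤ (Fintype.piFinset fun i => if i = i₀ then {0} else Finset.Icc (-(N : ℤ)) N).card *
      (2 * N + 1) := Nat.mul_le_mul_right _ (Finset.card_le_card h)
    _ = _ := h1

end LangForms
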