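import Pool.Agent.Lib_MP_f5471b_aa.Box

/-!
# MP_f5471b_nt: almost all pairs in the box have a large radical
-/

namespace LangForms

open NumberField

open scoped Classical in
/-- The bad pairs in the box. -/
noncomputable def badSet {K ι : Type} [Field K] [NumberField K] [Fintype ι]
    (ω : Module.Basis ι ℤ (𝓞 K)) (X R : ℕ) : Finset ((ι → ℤ) × (ι → ℤ)) :=
  ((box ι (X ^ 2)) ×ˢ (box ι (X ^ 3))).filter fun z =>
    lin ω z.1 ≠ 0 ∧ denJ (lin ω z.1) (lin ω z.2) ≠ 0 ∧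
      ∏ p ∈ goodPrimes (lin ω z.1) (lin ω z.2), p ≤ R

theorem box_abs {ι : Type} [Fintype ι] [DecidableEq ι] {N : ℕ} {u : ι → ℤ} (h : u ∈ box ι N)
    (i : ι) : |(u i : ℝ)| ≤ N := by
  have := mem_box.1 h i
  exact_mod_cast this

open scoped Classical in
/-- The fibre of the bad set along the coordinate `i₀`. -/
theorem bad_fibre {ε : ℝ} (hε : 0 < ε) : ∃ C : ℝ, 0 < C ∧
    ∀ (K ι : Type) [Field K] [NumberField K] [Fintype ι] (ω : Module.Basis ι ℤ (𝓞 K)) (i₀ : ι)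
      (X R : ℕ), 1 ≤ X →
    ∀ y : (ι → ℤ) × (ι → ℤ), y.1 ∈ box ι (X ^ 2) →
      y.2 ∈ (box ι (X ^ 3)).filter (fun v => v i₀ = 0) →
      (((badSet ω X R).filter
        (fun z => (z.1, Function.update z.2 i₀ 0) = y)).card : ℝ) ≤
      4 * Module.finrank ℚ K * (C * ((31 * bdM ω ^ 3 * (X : ℝ) ^ 6) ^ Module.finrank ℚ K) ^ ε *
        (6 * (bdM ω * (X : ℝ) ^ 2) ^ Module.finrank ℚ K) ^ ε * (R : ℝ) ^ (1 + ε)) := by
  obtain ⟨C, hC, hcount⟩ := line_count hε
  refine ⟨C, hC, ?_⟩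
  intro K ι _ _ _ ω i₀ X R hX y hy1 hy2
  rw [Finset.mem_filter] at hy2
  obtain ⟨hy2, hy0⟩ := hy2
  have hM := one_le_bdM ω
  have hX1 : (1 : ℝ) ≤ X := by exact_mod_cast hX
  by_cases ha : lin ω y.1 = 0
  · have hempty : (badSet ω X R).filter
        (fun z => (z.1, Function.update z.2 i₀ 0) = y) = ∅ := by
      rw [Finset.filter_eq_empty_iff]
      intro z hz hzy
      unfold badSet at hz
      rw [Finset.mem_filter] at hz
      apply hz.2.1
      rw [← ha, ← hzy]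
    rw [hempty, Finset.card_empty, Nat.cast_zero]
    have : 0 ≤ bdM ω := by linarith
    positivity
  set a := lin ω y.1 with had
  set b := lin ω y.2 with hbd
  set w := ω i₀ with hw
  have hw0 : w ≠ 0 := ω.ne_zero i₀
  set Z : Finset ℤ := Finset.Icc (-((X ^ 3 : ℕ) : ℤ)) (X ^ 3 : ℕ) with hZ
  have hupd : ∀ v : ι → ℤ, v = Function.update v i₀ 0 + Pi.single i₀ (v i₀) := by
    intro v
    funext i
    by_cases hi : i = i₀
    · subst hi
      simp
    · simp [hi]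
  have hlin : ∀ n : ℤ, b + (n : 𝓞 K) * w = lin ω (y.2 + Pi.single i₀ n) := by
    intro n
    rw [lin_add, lin_single]
  have hbox : ∀ n ∈ Z, y.2 + Pi.single i₀ n ∈ box ι (X ^ 3) := by
    intro n hn
    rw [hZ, Finset.mem_Icc] at hn
    rw [mem_box] at hy2 ⊢
    intro i
    by_cases hi : i = i₀
    · subst hi
      rw [Pi.add_apply, Pi.single_eq_same, hy0, zero_add, abs_le]
      exact hn
    · rw [Pi.add_apply, Pi.single_eq_of_ne hi, add_zero]
      exact hy2 i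
  have hva : ∀ v : InfinitePlace K, v (a : K) ≤ bdM ω * (X : ℝ) ^ 2 := by
    intro v
    exact lin_val ω (by positivity) y.1 (fun i => by
      have := box_abs hy1 i
      push_cast at this
      exact this) v
  have hvb : ∀ n ∈ Z, ∀ v : InfinitePlace K,
      v ((b + (n : 𝓞 K) * w : 𝓞 K) : K) ≤ bdM ω * (X : ℝ) ^ 3 := by
    intro n hn v
    rw [hlin]
    exact lin_val ω (by positivity) _ (fun i => by
      have := box_abs (hbox n hn) i
      push_cast at this
      exact this) v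
  set Y : ℕ := ⌊(31 * bdM ω ^ 3 * (X : ℝ) ^ 6) ^ Module.finrank ℚ K⌋₊ with hY
  have hYb : ∀ n ∈ Z, (Algebra.norm ℤ (denJ a (b + (n : 𝓞 K) * w))).natAbs ≤ Y := by
    intro n hn
    apply Nat.le_floor
    exact norm_natAbs_le _ fun v => denJ_val hM (by positivity) _ _ v (hva v) (hvb n hn v)
  have hc := hcount K a b w ha hw0 Z R Y hYb
  have hinj : ((badSet ω X R).filter
      (fun z => (z.1, Function.update z.2 i₀ 0) = y)).card ≤
      (Z.filter (fun n : ℤ => denJ a (b + (n : 𝓞 K) * w) ≠ 0 ∧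
      ∏ p ∈ goodPrimes a (b + (n : 𝓞 K) * w), p ≤ R)).card := by
    apply Finset.card_le_card_of_injOn (fun z => z.2 i₀)
    · intro z hz
      have hz' := Finset.mem_coe.1 hz
      rw [Finset.mem_filter] at hz'
      obtain ⟨hz1, hz2⟩ := hz'
      unfold badSet at hz1
      rw [Finset.mem_filter, Finset.mem_product] at hz1
      obtain ⟨⟨h1, h2⟩, h3, h4, h5⟩ := hz1
      have e1 : z.1 = y.1 := by rw [← hz2]
      have e2 : Function.update z.2 i₀ 0 = y.2 := by rw [← hz2]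
      have e3 : z.2 = y.2 + Pi.single i₀ (z.2 i₀) := by
        rw [← e2]
        exact hupd z.2
      have e4 : lin ω z.2 = b + ((z.2 i₀ : ℤ) : 𝓞 K) * w := by
        rw [hlin, ← e3]
      rw [e1, ← had] at h4 h5
      rw [e4] at h4 h5
      refine Finset.mem_coe.2 (Finset.mem_filter.2 ⟨?_, h4, h5⟩)
      rw [hZ, Finset.mem_Icc, ← abs_le]
      exact mem_box.1 h2 i₀
    · intro z hz z' hz' hzz
      have hz1 := (Finset.mem_filter.1 (Finset.mem_coe.1 hz)).2
      have hz2 := (Finset.mem_filter.1 (Finset.mem_coe.1 hz')).2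
      have e1 : z.1 = z'.1 := by
        have := hz1.trans hz2.symm
        exact (Prod.ext_iff.1 this).1
      have e2 : Function.update z.2 i₀ 0 = Function.update z'.2 i₀ 0 := by
        have := hz1.trans hz2.symm
        exact (Prod.ext_iff.1 this).2
      have hzz' : z.2 i₀ = z'.2 i₀ := hzz
      refine Prod.ext e1 ?_
      rw [hupd z.2, hupd z'.2, e2, hzz']
  have hNa : ((6 * (Algebra.norm ℤ a).natAbs : ℕ) : ℝ) ≤
      6 * (bdM ω * (X : ℝ) ^ 2) ^ Module.finrank ℚ K := by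
    push_cast
    have := norm_natAbs_le a hva
    push_cast at this
    linarith
  have hYr : (Y : ℝ) ≤ (31 * bdM ω ^ 3 * (X : ℝ) ^ 6) ^ Module.finrank ℚ K := by
    rw [hY]
    have : 0 ≤ bdM ω := by linarith
    exact Nat.floor_le (by positivity)
  calc (((badSet ω X R).filter
        (fun z => (z.1, Function.update z.2 i₀ 0) = y)).card : ℝ)
      ≤ ((Z.filter (fun n : ℤ => denJ a (b + (n : 𝓞 K) * w) ≠ 0 ∧
      ∏ p ∈ goodPrimes a (b + (n : 𝓞 K) * w), p ≤ R)).card : ℝ) := by exact_mod_cast hinj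
    _ ≤ _ := hc
    _ ≤ _ := by
        have h1 : (Y : ℝ) ^ ε ≤ ((31 * bdM ω ^ 3 * (X : ℝ) ^ 6) ^ Module.finrank ℚ K) ^ ε :=
          Real.rpow_le_rpow (Nat.cast_nonneg _) hYr hε.le
        have h2 : ((6 * (Algebra.norm ℤ a).natAbs : ℕ) : ℝ) ^ ε ≤
            (6 * (bdM ω * (X : ℝ) ^ 2) ^ Module.finrank ℚ K) ^ ε :=
          Real.rpow_le_rpow (Nat.cast_nonneg _) hNa hε.le
        have h3 : 0 ≤ (R : ℝ) ^ (1 + ε) := Real.rpow_nonneg (Nat.cast_nonneg _) _
        have h4 : 0 ≤ (Y : ℝ) ^ ε := Real.rpow_nonneg (Nat.cast_nonneg _) _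
        have h5 : 0 ≤ ((6 * (Algebra.norm ℤ a).natAbs : ℕ) : ℝ) ^ ε :=
          Real.rpow_nonneg (Nat.cast_nonneg _) _
        apply mul_le_mul_of_nonneg_left _ (by positivity)
        apply mul_le_mul_of_nonneg_right _ h3
        exact mul_le_mul (mul_le_mul_of_nonneg_left h1 hC.le) h2 h5
          (mul_nonneg hC.le (h4.trans h1))

open scoped Classical in
/-- The bad set has few points on each line, and is small. -/
theorem card_badSet {K ι : Type} [Field K] [NumberField K] [Fintype ι]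
    (ω : Module.Basis ι ℤ (𝓞 K)) {η : ℝ} (hη : 0 < η) (hη1 : η ≤ 1) :
    ∃ C : ℝ, 0 < C ∧ ∀ X R : ℕ, 1 ≤ X → (R : ℝ) ≤ (X : ℝ) ^ (η / 2) →
      ((badSet ω X R).card : ℝ) ≤
        C * ((X : ℝ) ^ (5 * Module.finrank ℚ K - 3) * (X : ℝ) ^ η) ∧
      ∀ (u v : ι → ℤ) (i₀ : ι),
        (((badSet ω X R).filter (fun z => z.1 = u ∧ ∀ i, i ≠ i₀ → z.2 i = v i)).card : ℝ) ≤
          C * (X : ℝ) ^ η := by
  set d := Module.finrank ℚ K with hd
  have hd1 : 1 ≤ d := Module.finrank_pos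
  have hdr : (1 : ℝ) ≤ d := by exact_mod_cast hd1
  set ε : ℝ := η / (32 * d) with hε
  have hε0 : 0 < ε := by positivity
  have hε1 : ε ≤ 1 / 32 := by
    rw [hε, div_le_iff₀ (by positivity)]
    linarith
  obtain ⟨C, hC, hfib⟩ := bad_fibre hε0
  have hcard : Fintype.card ι = d := by
    rw [hd, ← RingOfIntegers.rank K, Module.finrank_eq_card_basis ω]
  have hne : Nonempty ι := by
    rw [← Fintype.card_pos_iff, hcard]
    omega
  set M := bdM ω with hMd
  have hM : 1 ≤ M := one_le_bdM ω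
  have hM0 : 0 < M := by linarith
  set A : ℝ := (31 * M ^ 3) ^ d with hA
  set B : ℝ := 6 * M ^ d with hB
  have hA0 : 0 < A := by positivity
  have hB0 : 0 < B := by positivity
  set C₁ : ℝ := 4 * d * (C * (A ^ ε * B ^ ε)) with hC₁
  have hC₁0 : 0 < C₁ := by positivity
  have h9 : (1 : ℝ) ≤ 9 ^ d := one_le_pow₀ (by norm_num)
  refine ⟨C₁ * 9 ^ d, by positivity, ?_⟩
  intro X R hX hR
  have hX1 : (1 : ℝ) ≤ X := by exact_mod_cast hX
  have hX0 : (0 : ℝ) < X := by linarith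
  -- the bound of the fibres
  set β : ℝ := 4 * d * (C * ((31 * M ^ 3 * (X : ℝ) ^ 6) ^ d) ^ ε *
        (6 * (M * (X : ℝ) ^ 2) ^ d) ^ ε * (R : ℝ) ^ (1 + ε)) with hβ
  have hβ0 : 0 ≤ β := by positivity
  -- the size of β
  have h16 : β ≤ C₁ * (X : ℝ) ^ η := by
    have e1 : ((31 * M ^ 3 * (X : ℝ) ^ 6) ^ d) ^ ε = A ^ ε * ((X : ℝ) ^ (6 * d)) ^ ε := by
      rw [mul_pow, ← pow_mul, Real.mul_rpow (by positivity) (by positivity)]
    have e2 : (6 * (M * (X : ℝ) ^ 2) ^ d) ^ ε = B ^ ε * ((X : ℝ) ^ (2 * d)) ^ ε := by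
      rw [mul_pow, ← mul_assoc, ← pow_mul, Real.mul_rpow (by positivity) (by positivity)]
    have e3 : ((X : ℝ) ^ (6 * d)) ^ ε * ((X : ℝ) ^ (2 * d)) ^ ε = (X : ℝ) ^ (η / 4) := by
      rw [← Real.mul_rpow (by positivity) (by positivity), ← pow_add, ← Real.rpow_natCast,
        ← Real.rpow_mul hX0.le]
      congr 1
      rw [hε]
      push_cast
      field_simp
      ring
    have e4 : (R : ℝ) ^ (1 + ε) ≤ (X : ℝ) ^ (η * 3 / 4) := by
      calc (R : ℝ) ^ (1 + ε) ≤ ((X : ℝ) ^ (η / 2)) ^ (1 + ε) :=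
            Real.rpow_le_rpow (Nat.cast_nonneg _) hR (by linarith)
        _ = (X : ℝ) ^ (η / 2 * (1 + ε)) := by rw [← Real.rpow_mul hX0.le]
        _ ≤ (X : ℝ) ^ (η * 3 / 4) := by
            apply Real.rpow_le_rpow_of_exponent_le hX1
            have : η * ε ≤ η * (1 / 32) := mul_le_mul_of_nonneg_left hε1 hη.le
            linarith
    have e5 : (X : ℝ) ^ (η / 4) * (X : ℝ) ^ (η * 3 / 4) = (X : ℝ) ^ η := by
      rw [← Real.rpow_add hX0]
      congr 1
      ring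
    rw [hβ, e1, e2]
    calc 4 * (d : ℝ) * (C * (A ^ ε * ((X : ℝ) ^ (6 * d)) ^ ε) * (B ^ ε * ((X : ℝ) ^ (2 * d)) ^ ε) *
          (R : ℝ) ^ (1 + ε))
        = C₁ * ((((X : ℝ) ^ (6 * d)) ^ ε * ((X : ℝ) ^ (2 * d)) ^ ε) *
          (R : ℝ) ^ (1 + ε)) := by rw [hC₁]; ring
      _ = C₁ * ((X : ℝ) ^ (η / 4) * (R : ℝ) ^ (1 + ε)) := by rw [e3]
      _ ≤ C₁ * ((X : ℝ) ^ (η / 4) * (X : ℝ) ^ (η * 3 / 4)) := by
          apply mul_le_mul_of_nonneg_left _ hC₁0.le
          exact mul_le_mul_of_nonneg_left e4 (by positivity)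
      _ = C₁ * (X : ℝ) ^ η := by rw [e5]
  have hmaps : ∀ (i₀ : ι), ∀ z ∈ badSet ω X R, (z.1, Function.update z.2 i₀ 0) ∈
      (box ι (X ^ 2)) ×ˢ ((box ι (X ^ 3)).filter (fun v => v i₀ = 0)) := by
    intro i₀ z hz
    unfold badSet at hz
    rw [Finset.mem_filter, Finset.mem_product] at hz
    rw [Finset.mem_product, Finset.mem_filter]
    refine ⟨hz.1.1, ?_, by simp⟩
    rw [mem_box]
    intro i
    by_cases hi : i = i₀
    · subst hi
      simp
    · have := mem_box.1 hz.1.2 i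
      simpa [hi] using this
  refine ⟨?_, ?_⟩
  · obtain ⟨i₀⟩ := hne
    have hfc : ∀ y ∈ (box ι (X ^ 2)) ×ˢ ((box ι (X ^ 3)).filter (fun v => v i₀ = 0)),
        ((badSet ω X R).filter (fun z => (z.1, Function.update z.2 i₀ 0) = y)).card ≤ ⌊β⌋₊ := by
      intro y hy
      rw [Finset.mem_product] at hy
      apply Nat.le_floor
      exact hfib K ι ω i₀ X R hX y hy.1 hy.2
    have h1 := Finset.card_le_mul_card_image_of_maps_to (hmaps i₀) ⌊β⌋₊ hfc
    have h2 : ((badSet ω X R).card : ℝ) ≤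
        β * (((box ι (X ^ 2)) ×ˢ ((box ι (X ^ 3)).filter (fun v => v i₀ = 0))).card : ℝ) := by
      have h3 : ((badSet ω X R).card : ℝ) ≤ (⌊β⌋₊ : ℝ) *
          (((box ι (X ^ 2)) ×ˢ ((box ι (X ^ 3)).filter (fun v => v i₀ = 0))).card : ℝ) := by
        exact_mod_cast h1
      exact h3.trans (mul_le_mul_of_nonneg_right (Nat.floor_le hβ0) (Nat.cast_nonneg _))
    -- the number of fibres
    have h4 : (((box ι (X ^ 2)) ×ˢ ((box ι (X ^ 3)).filter (fun v => v i₀ = 0))).card : ℝ) ≤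
        9 ^ d * (X : ℝ) ^ (5 * d - 3) := by
      rw [Finset.card_product, card_box, hcard]
      have h5 := card_box_zero (X ^ 3) i₀
      rw [hcard] at h5
      have h6 : ((((box ι (X ^ 3)).filter (fun v => v i₀ = 0)).card : ℕ) : ℝ) *
          (2 * (X : ℝ) ^ 3 + 1) ≤ (2 * (X : ℝ) ^ 3 + 1) ^ d := by exact_mod_cast h5
      have h7 : 0 < 2 * (X : ℝ) ^ 3 + 1 := by positivity
      have h8 : ((((box ι (X ^ 3)).filter (fun v => v i₀ = 0)).card : ℕ) : ℝ) ≤
          (2 * (X : ℝ) ^ 3 + 1) ^ (d - 1) := by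
        have h9 : (2 * (X : ℝ) ^ 3 + 1) ^ d =
            (2 * (X : ℝ) ^ 3 + 1) ^ (d - 1) * (2 * (X : ℝ) ^ 3 + 1) := by
          rw [← pow_succ]
          congr 1
          omega
        rw [h9] at h6
        exact le_of_mul_le_mul_right h6 h7
      have h10 : 2 * (X : ℝ) ^ 3 + 1 ≤ 3 * (X : ℝ) ^ 3 := by
        have := one_le_pow₀ hX1 (n := 3)
        linarith
      have h11 : 2 * (X : ℝ) ^ 2 + 1 ≤ 3 * (X : ℝ) ^ 2 := by
        have := one_le_pow₀ hX1 (n := 2)
        linarith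
      have h12 : (2 * (X : ℝ) ^ 3 + 1) ^ (d - 1) ≤ (3 * (X : ℝ) ^ 3) ^ (d - 1) :=
        pow_le_pow_left₀ (by positivity) h10 _
      have h13 : (2 * (X : ℝ) ^ 2 + 1) ^ d ≤ (3 * (X : ℝ) ^ 2) ^ d :=
        pow_le_pow_left₀ (by positivity) h11 _
      push_cast
      calc (2 * (X : ℝ) ^ 2 + 1) ^ d * _ ≤ (3 * (X : ℝ) ^ 2) ^ d * (3 * (X : ℝ) ^ 3) ^ (d - 1) :=
            mul_le_mul h13 (h8.trans h12) (Nat.cast_nonneg _) (by positivity)
        _ = (3 ^ d * 3 ^ (d - 1)) * (X : ℝ) ^ (5 * d - 3) := by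
            rw [mul_pow, mul_pow, ← pow_mul, ← pow_mul]
            have h14 : 5 * d - 3 = 2 * d + 3 * (d - 1) := by omega
            rw [h14, pow_add]
            ring
        _ ≤ 9 ^ d * (X : ℝ) ^ (5 * d - 3) := by
            apply mul_le_mul_of_nonneg_right _ (by positivity)
            have h15 : (9 : ℝ) ^ d = 3 ^ d * 3 ^ d := by
              rw [← mul_pow]
              norm_num
            rw [h15]
            apply mul_le_mul_of_nonneg_left _ (by positivity)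
            exact pow_le_pow_right₀ (by norm_num) (by omega)
    calc ((badSet ω X R).card : ℝ)
        ≤ β * (((box ι (X ^ 2)) ×ˢ ((box ι (X ^ 3)).filter (fun v => v i₀ = 0))).card : ℝ) := h2
      _ ≤ (C₁ * (X : ℝ) ^ η) * (9 ^ d * (X : ℝ) ^ (5 * d - 3)) :=
          mul_le_mul h16 h4 (Nat.cast_nonneg _) (by positivity)
      _ = C₁ * 9 ^ d * ((X : ℝ) ^ (5 * d - 3) * (X : ℝ) ^ η) := by ring
  · intro u v i₀
    have hsub : (badSet ω X R).filter (fun z => z.1 = u ∧ ∀ i, i ≠ i₀ → z.2 i = v i) ⊆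
        (badSet ω X R).filter (fun z => (z.1, Function.update z.2 i₀ 0) =
          (u, Function.update v i₀ 0)) := by
      intro z hz
      rw [Finset.mem_filter] at hz ⊢
      refine ⟨hz.1, Prod.ext hz.2.1 ?_⟩
      funext i
      by_cases hi : i = i₀
      · subst hi
        simp
      · simp [hi, hz.2.2 i hi]
    have hle : (((badSet ω X R).filter (fun z => (z.1, Function.update z.2 i₀ 0) =
          (u, Function.update v i₀ 0))).card : ℝ) ≤ β := by
      by_cases hem : (badSet ω X R).filter (fun z => (z.1, Function.update z.2 i₀ 0) =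
          (u, Function.update v i₀ 0)) = ∅
      · rw [hem, Finset.card_empty, Nat.cast_zero]
        exact hβ0
      · obtain ⟨z, hz⟩ := Finset.nonempty_iff_ne_empty.2 hem
        rw [Finset.mem_filter] at hz
        have hm := hmaps i₀ z hz.1
        rw [hz.2, Finset.mem_product] at hm
        exact hfib K ι ω i₀ X R hX (u, Function.update v i₀ 0) hm.1 hm.2
    calc (((badSet ω X R).filter (fun z => z.1 = u ∧ ∀ i, i ≠ i₀ → z.2 i = v i)).card : ℝ)
        ≤ β := le_trans (by exact_mod_cast Finset.card_le_card hsub) hle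
      _ ≤ C₁ * (X : ℝ) ^ η := h16
      _ ≤ C₁ * 9 ^ d * (X : ℝ) ^ η := by
          apply mul_le_mul_of_nonneg_right _ (by positivity)
          exact le_mul_of_one_le_right hC₁0.le h9

end LangForms
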