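import Pool.Agent.Lib_MP_f5471b_aa.Heights

/-!
# MP_f5471b_nt: `y² = x³ + a x + b` with a large radical
-/

namespace LangForms

open Height NumberField WeierstrassCurve Topology Filter

/-- The curve `y² = x³ + a x + b`. -/
def curveAB {K : Type} [Field K] (a b : K) : WeierstrassCurve K := ⟨0, 0, 0, a, b⟩

theorem curveAB_c₄ {K : Type} [Field K] (a b : K) : (curveAB a b).c₄ = -48 * a := by
  simp only [curveAB, WeierstrassCurve.c₄, b₂, b₄]
  ring

theorem curveAB_Δ {K : Type} [Field K] (a b : K) :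
    (curveAB a b).Δ = -16 * (4 * a ^ 3 + 27 * b ^ 2) := by
  simp only [curveAB, WeierstrassCurve.Δ, b₂, b₄, b₆, b₈]
  ring

theorem curveAB_j {K : Type} [Field K] [CharZero K] (a b : K) [(curveAB a b).IsElliptic] :
    (curveAB a b).j = 6912 * a ^ 3 / (4 * a ^ 3 + 27 * b ^ 2) := by
  have hΔ : (curveAB a b).Δ ≠ 0 := (curveAB a b).isUnit_Δ.ne_zero
  rw [curveAB_Δ] at hΔ
  have hD : 4 * a ^ 3 + 27 * b ^ 2 ≠ 0 := right_ne_zero_of_mul hΔ
  rw [jb_j_eq, curveAB_c₄, curveAB_Δ]
  field_simp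
  ring

/-- The numerator and the denominator of the `j`-invariant. -/
def numJ {K : Type} [Field K] (a : 𝓞 K) : 𝓞 K := 6912 * a ^ 3

/-- The denominator of the `j`-invariant. -/
def denJ {K : Type} [Field K] (a b : 𝓞 K) : 𝓞 K := 4 * a ^ 3 + 27 * b ^ 2

/-- The primes dividing the norm of `4 a³ + 27 b²` but not the one of `6 a`. -/
noncomputable def goodPrimes {K : Type} [Field K] [NumberField K] (a b : 𝓞 K) : Finset ℕ :=
  (Algebra.norm ℤ (denJ a b)).natAbs.primeFactors \ (6 * (Algebra.norm ℤ a).natAbs).primeFactors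

theorem goodPrimes_spec {K : Type} [Field K] [NumberField K] (a b : 𝓞 K) (ha : a ≠ 0)
    (p : ℕ) (hp : p ∈ goodPrimes a b) : p.Prime ∧ p ∣ (Algebra.norm ℤ (denJ a b)).natAbs ∧
      ¬ p ∣ (Algebra.norm ℤ (numJ a)).natAbs := by
  unfold goodPrimes at hp
  rw [Finset.mem_sdiff] at hp
  obtain ⟨h1, h2⟩ := hp
  have hpp := Nat.prime_of_mem_primeFactors h1
  refine ⟨hpp, Nat.dvd_of_mem_primeFactors h1, fun h3 => h2 ?_⟩
  have hN : (Algebra.norm ℤ a).natAbs ≠ 0 := by
    rw [Int.natAbs_ne_zero, Algebra.norm_ne_zero_iff]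
    exact ha
  rw [Nat.mem_primeFactors]
  refine ⟨hpp, ?_, by positivity⟩
  unfold numJ at h3
  rw [map_mul, map_pow, Int.natAbs_mul, Int.natAbs_pow, hpp.dvd_mul] at h3
  rcases h3 with h3 | h3
  · have h4 : (6912 : 𝓞 K) = algebraMap ℤ (𝓞 K) 6912 := by simp
    rw [h4, Algebra.norm_algebraMap, Int.natAbs_pow] at h3
    have h5 : p ∣ 6912 := hpp.dvd_of_dvd_pow h3
    have h6 : (6912 : ℕ) ∣ 6 ^ 8 := by norm_num
    exact Dvd.dvd.mul_right (hpp.dvd_of_dvd_pow (h5.trans h6)) _
  · exact Dvd.dvd.mul_left (hpp.dvd_of_dvd_pow h3) _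

/-- If the product of the good primes is at least `X ^ (1 / κ)`, then `JCond` and the bound for
`hW` hold with a constant depending only on the field, on `M` and on `κ`. -/
theorem curve_cond {K : Type} [Field K] [NumberField K] (M X κ : ℝ) (hM : 1 ≤ M) (hX : 1 ≤ X)
    (hκ : 0 < κ)
    (a b : 𝓞 K) (ha : a ≠ 0) [(curveAB (a : K) (b : K)).IsElliptic]
    (hva : ∀ v : InfinitePlace K, v (a : K) ≤ M * X ^ 2)
    (hvb : ∀ v : InfinitePlace K, v (b : K) ≤ M * X ^ 3)
    (hgood : X ^ (1 / κ : ℝ) ≤ ((∏ p ∈ goodPrimes a b, p : ℕ) : ℝ)) :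
    JCond (curveAB (a : K) (b : K)).j 0
        (Module.finrank ℚ K * (Real.log (6912 * M ^ 3) + 6 * κ)) ∧
      hW (curveAB (a : K) (b : K)) ≤ Module.finrank ℚ K * (Real.log (6912 * M ^ 3) + 6 * κ) *
        (1 + hJ (curveAB (a : K) (b : K))) ∧
      Real.log X ≤ κ * Module.finrank ℚ K * hJ (curveAB (a : K) (b : K)) := by
  set d : ℝ := (Module.finrank ℚ K : ℝ) with hd
  have hd1 : 1 ≤ d := by
    rw [hd]
    exact_mod_cast Module.finrank_pos (R := ℚ) (M := K)
  have hX0 : 0 < X := by linarith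
  have hM0 : 0 < M := by linarith
  have hΔ : (curveAB (a : K) (b : K)).Δ ≠ 0 := (curveAB (a : K) (b : K)).isUnit_Δ.ne_zero
  rw [curveAB_Δ] at hΔ
  have hDK : 4 * (a : K) ^ 3 + 27 * (b : K) ^ 2 ≠ 0 := right_ne_zero_of_mul hΔ
  have hden : ((denJ a b : 𝓞 K) : K) = 4 * (a : K) ^ 3 + 27 * (b : K) ^ 2 := by
    change algebraMap (𝓞 K) K (4 * a ^ 3 + 27 * b ^ 2) = 4 * (algebraMap (𝓞 K) K a) ^ 3 +
      27 * (algebraMap (𝓞 K) K b) ^ 2
    rw [map_add, map_mul, map_mul, map_pow, map_pow, map_ofNat, map_ofNat]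
  have hnum : ((numJ a : 𝓞 K) : K) = 6912 * (a : K) ^ 3 := by
    change algebraMap (𝓞 K) K (6912 * a ^ 3) = 6912 * (algebraMap (𝓞 K) K a) ^ 3
    rw [map_mul, map_pow, map_ofNat]
  have hden0 : denJ a b ≠ 0 := by
    intro h
    apply hDK
    rw [← hden, h]
    simp
  have hnum0 : numJ a ≠ 0 := by
    unfold numJ
    exact mul_ne_zero (by norm_num) (pow_ne_zero 3 ha)
  have hj : (curveAB (a : K) (b : K)).j = ((numJ a : 𝓞 K) : K) / ((denJ a b : 𝓞 K) : K) := by
    rw [curveAB_j, hden, hnum]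
  -- the radical
  set Lr : ℝ := ∑ᶠ v : {v : FinitePlace K // 1 < v (curveAB (a : K) (b : K)).j}, Real.log (plNorm v.1) with hLr
  have hrad : Real.log ((∏ p ∈ goodPrimes a b, p : ℕ) : ℝ) ≤ Lr := by
    rw [hLr, hj]
    exact rad_lower (numJ a) (denJ a b) hden0 _ (fun p hp => goodPrimes_spec a b ha p hp)
  have hlogX : Real.log X ≤ κ * Lr := by
    have h1 : Real.log (X ^ (1 / κ : ℝ)) ≤ Lr :=
      (Real.log_le_log (Real.rpow_pos_of_pos hX0 _) hgood).trans hrad
    rw [Real.log_rpow hX0, one_div, inv_mul_le_iff₀ hκ] at h1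
    exact h1
  have hlogX0 : 0 ≤ Real.log X := Real.log_nonneg hX
  have hLr0 : 0 ≤ Lr := by
    by_contra hneg
    rw [not_le] at hneg
    have := mul_neg_of_pos_of_neg hκ hneg
    linarith
  have hradh : Lr ≤ logHeight₁ (curveAB (a : K) (b : K)).j := by
    rw [hLr, hj]
    exact rad_le_height (numJ a) (denJ a b) hnum0 hden0
  -- bounds at the infinite places
  have hXpow : ∀ k : ℕ, 1 ≤ X ^ k := fun k => one_le_pow₀ hX
  have hMpow : ∀ k : ℕ, 1 ≤ M ^ k := fun k => one_le_pow₀ hM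
  have hvnat : ∀ (v : InfinitePlace K) (n : ℕ), v (n : K) = n := by
    intro v n
    rw [← InfinitePlace.norm_embedding_eq, map_natCast, Complex.norm_natCast]
  have hnumv : ∀ v : InfinitePlace K, v ((numJ a : 𝓞 K) : K) ≤ 6912 * M ^ 3 * X ^ 6 := by
    intro v
    rw [hnum, map_mul, map_pow]
    have h1 : v (6912 : K) = 6912 := by
      have := hvnat v 6912
      push_cast at this
      exact this
    rw [h1]
    have h2 : v (a : K) ^ 3 ≤ (M * X ^ 2) ^ 3 := pow_le_pow_left₀ (apply_nonneg v _) (hva v) 3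
    calc 6912 * v (a : K) ^ 3 ≤ 6912 * (M * X ^ 2) ^ 3 := by linarith
      _ = 6912 * M ^ 3 * X ^ 6 := by ring
  have hdenv : ∀ v : InfinitePlace K, v ((denJ a b : 𝓞 K) : K) ≤ 6912 * M ^ 3 * X ^ 6 := by
    intro v
    rw [hden]
    have h4 : v (4 : K) = 4 := by
      have := hvnat v 4
      push_cast at this
      exact this
    have h27 : v (27 : K) = 27 := by
      have := hvnat v 27
      push_cast at this
      exact this
    have h2 : v (a : K) ^ 3 ≤ (M * X ^ 2) ^ 3 := pow_le_pow_left₀ (apply_nonneg v _) (hva v) 3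
    have h3 : v (b : K) ^ 2 ≤ (M * X ^ 3) ^ 2 := pow_le_pow_left₀ (apply_nonneg v _) (hvb v) 2
    have h5 : M ^ 2 * X ^ 6 ≤ M ^ 3 * X ^ 6 :=
      mul_le_mul_of_nonneg_right (pow_le_pow_right₀ hM (by norm_num)) (by positivity)
    have h6 : 0 ≤ M ^ 3 * X ^ 6 := by positivity
    calc v (4 * (a : K) ^ 3 + 27 * (b : K) ^ 2) ≤ v (4 * (a : K) ^ 3) + v (27 * (b : K) ^ 2) :=
          v.1.add_le _ _
      _ = 4 * v (a : K) ^ 3 + 27 * v (b : K) ^ 2 := by
          rw [map_mul, map_mul, map_pow, map_pow, h4, h27]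
      _ ≤ 4 * (M * X ^ 2) ^ 3 + 27 * (M * X ^ 3) ^ 2 := by linarith
      _ = 4 * (M ^ 3 * X ^ 6) + 27 * (M ^ 2 * X ^ 6) := by ring
      _ ≤ 6912 * M ^ 3 * X ^ 6 := by linarith
  -- height of j
  have hB1 : 1 ≤ 6912 * M ^ 3 * X ^ 6 := by
    have := one_le_mul_of_one_le_of_one_le (hMpow 3) (hXpow 6)
    linarith
  have hjh : logHeight₁ (curveAB (a : K) (b : K)).j ≤ d * Real.log (6912 * M ^ 3 * X ^ 6) := by
    rw [hj, logHeight₁_div_eq_logHeight]
    have h1 := logHeight_int_le (K := K) (![numJ a, denJ a b] : Fin 2 → 𝓞 K) (by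
      intro h
      have := congrFun h 0
      simp only [Matrix.cons_val_zero, Pi.zero_apply] at this
      exact hnum0 (by exact_mod_cast this)) (B := 6912 * M ^ 3 * X ^ 6) (by
      intro v i
      fin_cases i
      · exact hnumv v
      · exact hdenv v)
    have h2 : (fun i => ((![numJ a, denJ a b] : Fin 2 → 𝓞 K) i : K)) =
        ![((numJ a : 𝓞 K) : K), ((denJ a b : 𝓞 K) : K)] := by
      funext i
      fin_cases i <;> rfl
    rw [h2] at h1
    exact h1
  have hlogB : Real.log (6912 * M ^ 3 * X ^ 6) = Real.log (6912 * M ^ 3) + 6 * Real.log X := by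
    rw [Real.log_mul (by positivity) (by positivity), Real.log_pow]
    norm_num
  have hLM0 : 0 ≤ Real.log (6912 * M ^ 3) := Real.log_nonneg (by linarith [hMpow 3])
  set LM : ℝ := Real.log (6912 * M ^ 3) with hLM
  have hjh2 : logHeight₁ (curveAB (a : K) (b : K)).j ≤ d * (LM + 6 * κ) * (1 + Lr) := by
    have h1 : LM + 6 * Real.log X ≤ (LM + 6 * κ) * (1 + Lr) := by nlinarith
    calc logHeight₁ (curveAB (a : K) (b : K)).j ≤ d * (LM + 6 * Real.log X) := by rw [← hlogB]; exact hjh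
      _ ≤ d * ((LM + 6 * κ) * (1 + Lr)) := mul_le_mul_of_nonneg_left h1 (by linarith)
      _ = d * (LM + 6 * κ) * (1 + Lr) := by ring
  have hJW : hJ (curveAB (a : K) (b : K)) = logHeight₁ (curveAB (a : K) (b : K)).j / d := rfl
  have h5 : Real.log X ≤ κ * (d * hJ (curveAB (a : K) (b : K))) := by
    rw [hJW, mul_div_cancel₀ _ (by linarith)]
    exact hlogX.trans (mul_le_mul_of_nonneg_left hradh hκ.le)
  refine ⟨⟨∅, by simp, ?_⟩, ?_, by rw [mul_assoc]; exact h5⟩
  · have h3 : 0 ≤ ∑ v : InfinitePlace K, v.mult * Real.posLog (v (curveAB (a : K) (b : K)).j) :=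
      Finset.sum_nonneg fun v _ => mul_nonneg (Nat.cast_nonneg _) Real.posLog_nonneg
    rw [Finset.sum_empty, add_zero]
    refine hjh2.trans ?_
    apply mul_le_mul_of_nonneg_left _ (by positivity)
    linarith
  · have hWh : hWrel (curveAB (a : K) (b : K)) ≤ d * Real.log (M * X ^ 3) := by
      unfold hWrel
      have h1 := logHeight_int_le (K := K) (![1, 0, 0, 0, a, b] : Fin 6 → 𝓞 K) (by
        intro h
        have := congrFun h 0
        simp at this) (B := M * X ^ 3) (by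
        intro v i
        have h10 : (1 : ℝ) ≤ M * X ^ 3 := one_le_mul_of_one_le_of_one_le hM (hXpow 3)
        have h11 : v (a : K) ≤ M * X ^ 3 := (hva v).trans
          (mul_le_mul_of_nonneg_left (pow_le_pow_right₀ hX (by norm_num)) hM0.le)
        fin_cases i
        · simpa using h10
        · simpa using (by linarith : (0 : ℝ) ≤ M * X ^ 3)
        · simpa using (by linarith : (0 : ℝ) ≤ M * X ^ 3)
        · simpa using (by linarith : (0 : ℝ) ≤ M * X ^ 3)
        · exact h11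
        · exact hvb v)
      have h2 : (fun i => ((![1, 0, 0, 0, a, b] : Fin 6 → 𝓞 K) i : K)) =
          ![1, (curveAB (a : K) (b : K)).a₁, (curveAB (a : K) (b : K)).a₂,
            (curveAB (a : K) (b : K)).a₃, (curveAB (a : K) (b : K)).a₄,
            (curveAB (a : K) (b : K)).a₆] := by
        funext i
        fin_cases i <;> simp [curveAB]
      rw [h2] at h1
      exact h1
    have hlogM : Real.log (M * X ^ 3) ≤ LM + 3 * Real.log X := by
      rw [Real.log_mul (by positivity) (by positivity), Real.log_pow]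
      have h1 : Real.log M ≤ LM := by
        rw [hLM]
        apply Real.log_le_log hM0
        have : M ≤ M ^ 3 := le_self_pow₀ hM (by norm_num)
        nlinarith [hMpow 3]
      push_cast
      linarith
    have hJ0 : 0 ≤ hJ (curveAB (a : K) (b : K)) := div_nonneg (zero_le_logHeight₁ _) (by linarith)
    unfold hW
    rw [div_le_iff₀ (by linarith)]
    calc hWrel (curveAB (a : K) (b : K)) ≤ d * Real.log (M * X ^ 3) := hWh
      _ ≤ d * (LM + 3 * κ * (d * hJ (curveAB (a : K) (b : K)))) := by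
          apply mul_le_mul_of_nonneg_left _ (by linarith)
          linarith
      _ ≤ d * (LM + 6 * κ) * (1 + hJ (curveAB (a : K) (b : K))) * d := by
          have h6 : LM + 3 * κ * (d * hJ (curveAB (a : K) (b : K))) ≤
              (LM + 6 * κ) * (1 + hJ (curveAB (a : K) (b : K))) * d := by
            have h7 : LM ≤ LM * d := le_mul_of_one_le_right hLM0 hd1
            have h8 : 0 ≤ d * hJ (curveAB (a : K) (b : K)) := mul_nonneg (by linarith) hJ0
            have h9 : 0 ≤ LM * (d * hJ (curveAB (a : K) (b : K))) := mul_nonneg hLM0 h8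
            have h10 : 0 ≤ κ * (d * hJ (curveAB (a : K) (b : K))) := mul_nonneg hκ.le h8
            have h11 : 0 ≤ κ * d := mul_nonneg hκ.le (by linarith)
            nlinarith
          calc d * (LM + 3 * κ * (d * hJ (curveAB (a : K) (b : K)))) ≤
                d * ((LM + 6 * κ) * (1 + hJ (curveAB (a : K) (b : K))) * d) :=
                mul_le_mul_of_nonneg_left h6 (by linarith)
            _ = d * (LM + 6 * κ) * (1 + hJ (curveAB (a : K) (b : K))) * d := by ring

end LangForms
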