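import Mathlib

/-!
# MP_f5471b_nt: Rankin's method

Most integers have a large radical, also outside the prime factors of a given integer.
-/

namespace LangForms

open Finset

/-- The completely multiplicative function `n ↦ n ^ (-ε)`. -/
noncomputable def powF (ε : ℝ) : ℕ →* ℝ where
  toFun n := (n : ℝ) ^ (-ε)
  map_one' := by simp
  map_mul' m n := by
    push_cast
    exact Real.mul_rpow (Nat.cast_nonneg _) (Nat.cast_nonneg _)

theorem powF_apply (ε : ℝ) (n : ℕ) : powF ε n = (n : ℝ) ^ (-ε) := rfl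

theorem powF_lt_one {ε : ℝ} (hε : 0 < ε) {p : ℕ} (hp : p.Prime) : (p : ℝ) ^ (-ε) < 1 := by
  apply Real.rpow_lt_one_of_one_lt_of_neg
  · exact_mod_cast hp.one_lt
  · linarith

theorem rankin_count {ε : ℝ} (hε : 0 < ε) (s : Finset ℕ) (Y : ℕ) :
    (((Finset.Icc 1 Y).filter (fun y => y.primeFactors ⊆ s)).card : ℝ) ≤
      (Y : ℝ) ^ ε * ∏ p ∈ s.filter Nat.Prime, (1 - (p : ℝ) ^ (-ε))⁻¹ := by
  have h := (EulerProduct.summable_and_hasSum_factoredNumbers_prod_filter_prime_geometric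
    (f := powF ε) (fun {p} hp => by
      rw [powF_apply, Real.norm_of_nonneg (Real.rpow_nonneg (Nat.cast_nonneg _) _)]
      exact powF_lt_one hε hp) s).2
  have h' : HasSum (Set.indicator (Nat.factoredNumbers s) (powF ε))
      (∏ p ∈ s.filter Nat.Prime, (1 - (powF ε) p)⁻¹) :=
    (hasSum_subtype_iff_indicator).1 h
  have hsum := sum_le_hasSum ((Finset.Icc 1 Y).filter (fun y => y.primeFactors ⊆ s))
    (fun i _ => Set.indicator_nonneg (fun x _ => by
      rw [powF_apply]; exact Real.rpow_nonneg (Nat.cast_nonneg _) _) i) h'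
  calc (((Finset.Icc 1 Y).filter (fun y => y.primeFactors ⊆ s)).card : ℝ)
      = ∑ y ∈ (Finset.Icc 1 Y).filter (fun y => y.primeFactors ⊆ s), (1 : ℝ) := by simp
    _ ≤ ∑ y ∈ (Finset.Icc 1 Y).filter (fun y => y.primeFactors ⊆ s),
        (Y : ℝ) ^ ε * Set.indicator (Nat.factoredNumbers s) (powF ε) y := by
        apply Finset.sum_le_sum
        intro y hy
        rw [Finset.mem_filter, Finset.mem_Icc] at hy
        have hy0 : (0 : ℝ) < y := by exact_mod_cast hy.1.1
        have hyY : (y : ℝ) ≤ Y := by exact_mod_cast hy.1.2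
        have hmem : y ∈ Nat.factoredNumbers s := by
          rw [Nat.mem_factoredNumbers]
          refine ⟨by omega, fun p hp => ?_⟩
          exact hy.2 (by rwa [Nat.mem_primeFactors_iff_mem_primeFactorsList])
        rw [Set.indicator_of_mem hmem, powF_apply, Real.rpow_neg hy0.le, ← div_eq_mul_inv,
          one_le_div (Real.rpow_pos_of_pos hy0 _)]
        exact Real.rpow_le_rpow hy0.le hyY hε.le
    _ = (Y : ℝ) ^ ε * ∑ y ∈ (Finset.Icc 1 Y).filter (fun y => y.primeFactors ⊆ s),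
        Set.indicator (Nat.factoredNumbers s) (powF ε) y := by rw [Finset.mul_sum]
    _ ≤ (Y : ℝ) ^ ε * ∏ p ∈ s.filter Nat.Prime, (1 - (p : ℝ) ^ (-ε))⁻¹ := by
        apply mul_le_mul_of_nonneg_left _ (Real.rpow_nonneg (Nat.cast_nonneg _) _)
        exact hsum

theorem prod_bound {ε : ℝ} (hε : 0 < ε) : ∃ C : ℝ, 0 < C ∧ ∀ s : Finset ℕ,
    (∀ p ∈ s, p.Prime) →
    ∏ p ∈ s, (1 - (p : ℝ) ^ (-ε))⁻¹ ≤ C * ∏ p ∈ s, (p : ℝ) ^ ε := by
  obtain ⟨N, hN⟩ := exists_nat_ge ((2 : ℝ) ^ (1 / ε))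
  set c : ℝ := (1 - (2 : ℝ) ^ (-ε))⁻¹ with hc
  have h2 : (2 : ℝ) ^ (-ε) < 1 := by
    have := powF_lt_one hε Nat.prime_two
    simpa using this
  have h2' : 0 < (2 : ℝ) ^ (-ε) := Real.rpow_pos_of_pos (by norm_num) _
  have hc1 : 1 ≤ c := by
    rw [hc, one_le_inv₀ (by linarith)]
    linarith
  refine ⟨c ^ N, by positivity, fun s hs => ?_⟩
  have hterm : ∀ p ∈ s, (1 - (p : ℝ) ^ (-ε))⁻¹ ≤ (if p < N then c else 1) * (p : ℝ) ^ ε := by
    intro p hp
    have hpp := hs p hp
    have hp2 : (2 : ℝ) ≤ p := by exact_mod_cast hpp.two_le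
    have hp0 : (0 : ℝ) < p := by linarith
    have hlt := powF_lt_one hε hpp
    split_ifs with h
    · have h1 : (1 : ℝ) ≤ (p : ℝ) ^ ε := Real.one_le_rpow (by linarith) hε.le
      have h3 : (1 - (p : ℝ) ^ (-ε))⁻¹ ≤ c := by
        rw [hc]
        apply inv_anti₀ (by linarith)
        have : (p : ℝ) ^ (-ε) ≤ (2 : ℝ) ^ (-ε) :=
          Real.rpow_le_rpow_of_nonpos (by norm_num) hp2 (by linarith)
        linarith
      calc (1 - (p : ℝ) ^ (-ε))⁻¹ ≤ c := h3
        _ ≤ c * (p : ℝ) ^ ε := le_mul_of_one_le_right (by linarith) h1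
    · rw [one_mul]
      have h1 : (2 : ℝ) ≤ (p : ℝ) ^ ε := by
        have hNp : (2 : ℝ) ^ (1 / ε) ≤ p := le_trans hN (by exact_mod_cast not_lt.1 h)
        calc (2 : ℝ) = ((2 : ℝ) ^ (1 / ε)) ^ ε := by
              rw [← Real.rpow_mul (by norm_num), one_div, inv_mul_cancel₀ hε.ne', Real.rpow_one]
          _ ≤ (p : ℝ) ^ ε := Real.rpow_le_rpow (Real.rpow_nonneg (by norm_num) _) hNp hε.le
      have h4 : (p : ℝ) ^ (-ε) = ((p : ℝ) ^ ε)⁻¹ := Real.rpow_neg hp0.le _
      have h5 : (p : ℝ) ^ (-ε) ≤ 1 / 2 := by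
        rw [h4, one_div]
        exact inv_anti₀ (by norm_num) h1
      calc (1 - (p : ℝ) ^ (-ε))⁻¹ ≤ (1 / 2 : ℝ)⁻¹ := inv_anti₀ (by norm_num) (by linarith)
        _ = 2 := by norm_num
        _ ≤ (p : ℝ) ^ ε := h1
  have hnn : ∀ p ∈ s, (0 : ℝ) ≤ (1 - (p : ℝ) ^ (-ε))⁻¹ := by
    intro p hp
    have := powF_lt_one hε (hs p hp)
    exact inv_nonneg.2 (by linarith)
  calc ∏ p ∈ s, (1 - (p : ℝ) ^ (-ε))⁻¹
      ≤ ∏ p ∈ s, ((if p < N then c else 1) * (p : ℝ) ^ ε) := Finset.prod_le_prod hnn hterm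
    _ = (∏ p ∈ s, (if p < N then c else 1)) * ∏ p ∈ s, (p : ℝ) ^ ε := Finset.prod_mul_distrib
    _ ≤ c ^ N * ∏ p ∈ s, (p : ℝ) ^ ε := by
        apply mul_le_mul_of_nonneg_right _
          (Finset.prod_nonneg fun p _ => Real.rpow_nonneg (Nat.cast_nonneg _) _)
        rw [Finset.prod_ite, Finset.prod_const, Finset.prod_const_one, mul_one]
        apply pow_le_pow_right₀ hc1
        calc (s.filter (fun p => p < N)).card ≤ (Finset.range N).card := by
              apply Finset.card_le_card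
              intro p hp
              rw [Finset.mem_filter] at hp
              exact Finset.mem_range.2 hp.2
          _ = N := Finset.card_range N

/-- The integers `y ≤ Y` whose radical outside `m` is at most `R` are few. -/
theorem bad_count {ε : ℝ} (hε : 0 < ε) : ∃ C : ℝ, 0 < C ∧ ∀ m R Y : ℕ, 1 ≤ m →
    (((Finset.Icc 1 Y).filter
      (fun y => ∏ p ∈ y.primeFactors \ m.primeFactors, p ≤ R)).card : ℝ) ≤
      C * (Y : ℝ) ^ ε * (m : ℝ) ^ ε * (R : ℝ) ^ (1 + ε) := by
  obtain ⟨C, hC, h⟩ := prod_bound hε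
  refine ⟨C, hC, fun m R Y hm => ?_⟩
  have hsub : (Finset.Icc 1 Y).filter
      (fun y => ∏ p ∈ y.primeFactors \ m.primeFactors, p ≤ R) ⊆
      (Finset.Icc 1 R).biUnion (fun r => (Finset.Icc 1 Y).filter
        (fun y => y.primeFactors ⊆ m.primeFactors ∪ r.primeFactors)) := by
    intro y hy
    rw [Finset.mem_filter] at hy
    rw [Finset.mem_biUnion]
    have hpr : ∀ p ∈ y.primeFactors \ m.primeFactors, p.Prime := fun p hp =>
      Nat.prime_of_mem_primeFactors (Finset.mem_sdiff.1 hp).1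
    refine ⟨∏ p ∈ y.primeFactors \ m.primeFactors, p, ?_, ?_⟩
    · rw [Finset.mem_Icc]
      exact ⟨Nat.pos_of_ne_zero (Finset.prod_ne_zero_iff.2 fun p hp => (hpr p hp).ne_zero),
        hy.2⟩
    · rw [Finset.mem_filter]
      refine ⟨hy.1, fun p hp => ?_⟩
      rw [Finset.mem_union]
      by_cases hpm : p ∈ m.primeFactors
      · exact Or.inl hpm
      · right
        rw [Nat.primeFactors_prod hpr]
        exact Finset.mem_sdiff.2 ⟨hp, hpm⟩
  have hrad : ∀ n : ℕ, 1 ≤ n → ∏ p ∈ n.primeFactors, (p : ℝ) ^ ε ≤ (n : ℝ) ^ ε := by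
    intro n hn
    rw [Real.finsetProd_rpow _ _ (fun p _ => Nat.cast_nonneg p)]
    apply Real.rpow_le_rpow (Finset.prod_nonneg fun p _ => Nat.cast_nonneg p) _ hε.le
    have := Nat.le_of_dvd (by omega) (Nat.prod_primeFactors_dvd n)
    rw [← Nat.cast_prod]
    exact_mod_cast this
  have hone : ∀ p : ℕ, p.Prime → (1 : ℝ) ≤ (p : ℝ) ^ ε := fun p hp =>
    Real.one_le_rpow (by exact_mod_cast hp.one_lt.le) hε.le
  calc (((Finset.Icc 1 Y).filter
      (fun y => ∏ p ∈ y.primeFactors \ m.primeFactors, p ≤ R)).card : ℝ)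
      ≤ (((Finset.Icc 1 R).biUnion (fun r => (Finset.Icc 1 Y).filter
        (fun y => y.primeFactors ⊆ m.primeFactors ∪ r.primeFactors))).card : ℝ) := by
        exact_mod_cast Finset.card_le_card hsub
    _ ≤ ∑ r ∈ Finset.Icc 1 R, (((Finset.Icc 1 Y).filter
        (fun y => y.primeFactors ⊆ m.primeFactors ∪ r.primeFactors)).card : ℝ) := by
        exact_mod_cast Finset.card_biUnion_le
    _ ≤ ∑ r ∈ Finset.Icc 1 R, C * (Y : ℝ) ^ ε * (m : ℝ) ^ ε * (R : ℝ) ^ ε := by
        apply Finset.sum_le_sum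
        intro r hr
        rw [Finset.mem_Icc] at hr
        have hpr : ∀ p ∈ m.primeFactors ∪ r.primeFactors, p.Prime := by
          intro p hp
          rw [Finset.mem_union] at hp
          rcases hp with hp | hp
          · exact Nat.prime_of_mem_primeFactors hp
          · exact Nat.prime_of_mem_primeFactors hp
        have h1 := rankin_count hε (m.primeFactors ∪ r.primeFactors) Y
        rw [Finset.filter_true_of_mem hpr] at h1
        have h2 := h _ hpr
        have h3 : ∏ p ∈ m.primeFactors ∪ r.primeFactors, (p : ℝ) ^ ε ≤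
            (m : ℝ) ^ ε * (R : ℝ) ^ ε := by
          have hmul := Finset.prod_union_inter (s₁ := m.primeFactors) (s₂ := r.primeFactors)
            (f := fun p : ℕ => (p : ℝ) ^ ε)
          have hin : (1 : ℝ) ≤ ∏ p ∈ m.primeFactors ∩ r.primeFactors, (p : ℝ) ^ ε := by
            calc (1 : ℝ) = ∏ p ∈ m.primeFactors ∩ r.primeFactors, (1 : ℝ) := by simp
              _ ≤ ∏ p ∈ m.primeFactors ∩ r.primeFactors, (p : ℝ) ^ ε :=
                Finset.prod_le_prod (fun _ _ => zero_le_one) fun p hp =>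
                  hone p (Nat.prime_of_mem_primeFactors (Finset.mem_inter.1 hp).1)
          have hpos : (0 : ℝ) ≤ ∏ p ∈ m.primeFactors ∪ r.primeFactors, (p : ℝ) ^ ε :=
            Finset.prod_nonneg fun p _ => Real.rpow_nonneg (Nat.cast_nonneg _) _
          calc ∏ p ∈ m.primeFactors ∪ r.primeFactors, (p : ℝ) ^ ε
              ≤ (∏ p ∈ m.primeFactors ∪ r.primeFactors, (p : ℝ) ^ ε) *
                ∏ p ∈ m.primeFactors ∩ r.primeFactors, (p : ℝ) ^ ε :=
                le_mul_of_one_le_right hpos hin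
            _ = (∏ p ∈ m.primeFactors, (p : ℝ) ^ ε) * ∏ p ∈ r.primeFactors, (p : ℝ) ^ ε := hmul
            _ ≤ (m : ℝ) ^ ε * (R : ℝ) ^ ε := by
                apply mul_le_mul (hrad m hm) _
                  (Finset.prod_nonneg fun p _ => Real.rpow_nonneg (Nat.cast_nonneg _) _)
                  (Real.rpow_nonneg (Nat.cast_nonneg _) _)
                refine (hrad r hr.1).trans ?_
                exact Real.rpow_le_rpow (Nat.cast_nonneg _) (by exact_mod_cast hr.2) hε.le
        calc (((Finset.Icc 1 Y).filter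
              (fun y => y.primeFactors ⊆ m.primeFactors ∪ r.primeFactors)).card : ℝ)
            ≤ (Y : ℝ) ^ ε * ∏ p ∈ m.primeFactors ∪ r.primeFactors,
                (1 - (p : ℝ) ^ (-ε))⁻¹ := h1
          _ ≤ (Y : ℝ) ^ ε * (C * ((m : ℝ) ^ ε * (R : ℝ) ^ ε)) := by
              apply mul_le_mul_of_nonneg_left _ (Real.rpow_nonneg (Nat.cast_nonneg _) _)
              exact h2.trans (mul_le_mul_of_nonneg_left h3 hC.le)
          _ = C * (Y : ℝ) ^ ε * (m : ℝ) ^ ε * (R : ℝ) ^ ε := by ring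
    _ = C * (Y : ℝ) ^ ε * (m : ℝ) ^ ε * (R : ℝ) ^ (1 + ε) := by
        rw [Finset.sum_const, Nat.card_Icc, nsmul_eq_mul]
        rcases Nat.eq_zero_or_pos R with hR | hR
        · subst hR
          simp only [Nat.cast_zero]
          rw [Real.zero_rpow (by linarith : (1 : ℝ) + ε ≠ 0)]
          simp
        · have hR0 : (0 : ℝ) < R := by exact_mod_cast hR
          rw [Real.rpow_add hR0, Real.rpow_one]
          simp only [Nat.add_sub_cancel]
          ring

end LangForms
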