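import Pool.Agent.Lib_MP_f5471b_aa.Curve
import Pool.Agent.Lib_MP_f5471b_aa.Rankin

/-!
# MP_f5471b_nt: counting along a line
-/

namespace LangForms

open NumberField Polynomial

/-- A value of `n ↦ N(4 a³ + 27 (b + n w)²)` is taken at most `2 d` times. -/
theorem fibre_le {K : Type} [Field K] [NumberField K] (a b w : 𝓞 K) (hw : w ≠ 0) (t : ℤ)
    (Z : Finset ℤ) :
    (Z.filter (fun n : ℤ => Algebra.norm ℤ (denJ a (b + (n : 𝓞 K) * w)) = t)).card ≤
      2 * Module.finrank ℚ K := by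
  classical
  set q : (K →ₐ[ℚ] ℂ) → ℂ[X] := fun σ => C (27 * σ (w : K) ^ 2) * X ^ 2 +
    C (54 * σ (b : K) * σ (w : K)) * X + C (27 * σ (b : K) ^ 2 + 4 * σ (a : K) ^ 3) with hq
  have hwσ : ∀ σ : K →ₐ[ℚ] ℂ, (27 : ℂ) * σ (w : K) ^ 2 ≠ 0 := by
    intro σ
    have : σ (w : K) ≠ 0 := by
      rw [_root_.map_ne_zero]
      exact_mod_cast hw
    exact mul_ne_zero (by norm_num) (pow_ne_zero 2 this)
  have hdeg : ∀ σ, (q σ).natDegree = 2 := fun σ => natDegree_quadratic (hwσ σ)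
  have hq0 : ∀ σ, q σ ≠ 0 := by
    intro σ h
    have := hdeg σ
    rw [h, natDegree_zero] at this
    omega
  set P : ℂ[X] := ∏ σ : K →ₐ[ℚ] ℂ, q σ with hP
  have hPdeg : P.natDegree = 2 * Module.finrank ℚ K := by
    rw [hP, natDegree_prod _ _ (fun σ _ => hq0 σ)]
    simp only [hdeg, Finset.sum_const, Finset.card_univ, smul_eq_mul]
    rw [AlgHom.card, mul_comm]
  have hd : 0 < Module.finrank ℚ K := Module.finrank_pos
  have hPt : P - C (t : ℂ) ≠ 0 := by
    intro h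
    rw [sub_eq_zero] at h
    have := congrArg natDegree h
    rw [hPdeg, natDegree_C] at this
    omega
  have heval : ∀ n : ℤ, P.eval (n : ℂ) = ((Algebra.norm ℤ (denJ a (b + (n : 𝓞 K) * w)) : ℤ) : ℂ) := by
    intro n
    have h1 : (((Algebra.norm ℤ (denJ a (b + (n : 𝓞 K) * w)) : ℤ) : ℚ) : ℂ) =
        ∏ σ : K →ₐ[ℚ] ℂ, σ ((denJ a (b + (n : 𝓞 K) * w) : 𝓞 K) : K) := by
      rw [Algebra.coe_norm_int]
      exact Algebra.norm_eq_prod_embeddings ℚ ℂ _
    have h2 : ((Algebra.norm ℤ (denJ a (b + (n : 𝓞 K) * w)) : ℤ) : ℂ) =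
        (((Algebra.norm ℤ (denJ a (b + (n : 𝓞 K) * w)) : ℤ) : ℚ) : ℂ) := by
      push_cast
      rfl
    rw [h2, h1, hP, eval_prod]
    apply Finset.prod_congr rfl
    intro σ _
    have h3 : ((denJ a (b + (n : 𝓞 K) * w) : 𝓞 K) : K) =
        4 * (a : K) ^ 3 + 27 * ((b : K) + (n : K) * (w : K)) ^ 2 := by
      change algebraMap (𝓞 K) K (4 * a ^ 3 + 27 * (b + (n : 𝓞 K) * w) ^ 2) = _
      rw [map_add, map_mul, map_mul, map_pow, map_pow, map_ofNat, map_ofNat, map_add, map_mul,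
        map_intCast]
    have h4 : σ (4 : K) = 4 := map_ofNat σ 4
    have h27 : σ (27 : K) = 27 := map_ofNat σ 27
    rw [h3, _root_.map_add, _root_.map_mul, _root_.map_mul, _root_.map_pow, _root_.map_pow,
      _root_.map_add, _root_.map_mul, map_intCast, h4, h27, hq]
    simp only [eval_add, eval_mul, eval_C, eval_pow, eval_X]
    ring
  calc (Z.filter (fun n : ℤ => Algebra.norm ℤ (denJ a (b + (n : 𝓞 K) * w)) = t)).card
      = ((Z.filter (fun n : ℤ => Algebra.norm ℤ (denJ a (b + (n : 𝓞 K) * w)) = t)).image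
          (fun n : ℤ => (n : ℂ))).card :=
        (Finset.card_image_of_injective _ Int.cast_injective).symm
    _ ≤ (P - C (t : ℂ)).roots.toFinset.card := by
        apply Finset.card_le_card
        intro z hz
        rw [Finset.mem_image] at hz
        obtain ⟨n, hn, rfl⟩ := hz
        rw [Finset.mem_filter] at hn
        rw [Multiset.mem_toFinset, mem_roots hPt, IsRoot.def, eval_sub, eval_C, heval, hn.2,
          sub_self]
    _ ≤ Multiset.card (P - C (t : ℂ)).roots := Multiset.toFinset_card_le _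
    _ ≤ (P - C (t : ℂ)).natDegree := card_roots' _
    _ ≤ 2 * Module.finrank ℚ K := by
        refine (natDegree_sub_le _ _).trans ?_
        rw [hPdeg, natDegree_C]
        simp

open scoped Classical in
/-- The number of `n` in `Z` for which the radical of `N(4 a³ + 27 (b + n w)²)` outside `6 a` is
at most `R`, when the norms are bounded by `Y`. -/
theorem line_count {ε : ℝ} (hε : 0 < ε) : ∃ C : ℝ, 0 < C ∧
    ∀ (K : Type) [Field K] [NumberField K] (a b w : 𝓞 K), a ≠ 0 → w ≠ 0 →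
    ∀ (Z : Finset ℤ) (R Y : ℕ),
    (∀ n ∈ Z, (Algebra.norm ℤ (denJ a (b + (n : 𝓞 K) * w))).natAbs ≤ Y) →
    ((Z.filter (fun n : ℤ => denJ a (b + (n : 𝓞 K) * w) ≠ 0 ∧
      ∏ p ∈ goodPrimes a (b + (n : 𝓞 K) * w), p ≤ R)).card : ℝ) ≤
      4 * Module.finrank ℚ K * (C * (Y : ℝ) ^ ε *
        ((6 * (Algebra.norm ℤ a).natAbs : ℕ) : ℝ) ^ ε * (R : ℝ) ^ (1 + ε)) := by
  obtain ⟨C, hC, h⟩ := bad_count hε
  refine ⟨C, hC, ?_⟩
  intro K _ _ a b w ha hw Z R Y hY
  have hN : 1 ≤ 6 * (Algebra.norm ℤ a).natAbs := by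
    have : (Algebra.norm ℤ a).natAbs ≠ 0 := by
      rw [Int.natAbs_ne_zero, Algebra.norm_ne_zero_iff]
      exact ha
    omega
  have hb := h (6 * (Algebra.norm ℤ a).natAbs) R Y hN
  set B := (Finset.Icc 1 Y).filter (fun y => ∏ p ∈ y.primeFactors \
    (6 * (Algebra.norm ℤ a).natAbs).primeFactors, p ≤ R) with hB
  set f : ℤ → ℤ := fun n => Algebra.norm ℤ (denJ a (b + (n : 𝓞 K) * w)) with hf
  set S := Z.filter (fun n : ℤ => denJ a (b + (n : 𝓞 K) * w) ≠ 0 ∧
      ∏ p ∈ goodPrimes a (b + (n : 𝓞 K) * w), p ≤ R) with hS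
  set V : Finset ℤ := B.image (fun y : ℕ => (y : ℤ)) ∪ B.image (fun y : ℕ => -(y : ℤ)) with hV
  have hmaps : ∀ n ∈ S, f n ∈ V := by
    intro n hn
    rw [hS, Finset.mem_filter] at hn
    obtain ⟨hnZ, hn0, hnR⟩ := hn
    have h0 : f n ≠ 0 := by
      rw [hf]
      simp only
      rw [Algebra.norm_ne_zero_iff]
      exact hn0
    have h1 : (f n).natAbs ∈ B := by
      rw [hB, Finset.mem_filter, Finset.mem_Icc]
      exact ⟨⟨Nat.one_le_iff_ne_zero.2 (Int.natAbs_ne_zero.2 h0), hY n hnZ⟩, hnR⟩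
    rw [hV, Finset.mem_union, Finset.mem_image, Finset.mem_image]
    rcases Int.natAbs_eq (f n) with h2 | h2
    · exact Or.inl ⟨_, h1, h2.symm⟩
    · exact Or.inr ⟨_, h1, h2.symm⟩
  have hcard : S.card ≤ (2 * Module.finrank ℚ K) * V.card := by
    apply Finset.card_le_mul_card_image_of_maps_to hmaps
    intro t _
    refine le_trans (Finset.card_le_card ?_) (fibre_le a b w hw t Z)
    intro n hn
    rw [Finset.mem_filter] at hn ⊢
    exact ⟨(Finset.mem_filter.1 hn.1).1, hn.2⟩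
  have hVc : V.card ≤ 2 * B.card := by
    rw [hV]
    refine (Finset.card_union_le _ _).trans ?_
    have h1 := Finset.card_image_le (s := B) (f := fun y : ℕ => (y : ℤ))
    have h2 := Finset.card_image_le (s := B) (f := fun y : ℕ => -(y : ℤ))
    omega
  have h3 : (S.card : ℝ) ≤ (2 * Module.finrank ℚ K) * (2 * B.card) := by
    have : S.card ≤ (2 * Module.finrank ℚ K) * (2 * B.card) :=
      hcard.trans (Nat.mul_le_mul_left _ hVc)
    exact_mod_cast this
  calc (S.card : ℝ) ≤ (2 * Module.finrank ℚ K) * (2 * B.card) := h3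
    _ = 4 * Module.finrank ℚ K * B.card := by ring
    _ ≤ _ := mul_le_mul_of_nonneg_left hb (by positivity)

end LangForms
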