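import Pool.Agent.Lib_MP_f5471b_aa.BoxCount
import Pool.Agent.Lib_MP_f5471b_j.Final

/-!
# MP_f5471b_nt: the lower bound for almost all curves in a box
-/

namespace LangForms

open Height NumberField WeierstrassCurve Topology Filter

theorem ramLe_mono {K F : Type} [Field K] [NumberField K] [Field F] [NumberField F] [Algebra K F]
    {c c' h : ℝ} (hc : c' ≤ c) (hr : RamLe K F c h) : RamLe K F c' h := by
  intro S hS
  refine le_trans (mul_le_mul_of_nonneg_right hc ?_) (hr S hS)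
  exact div_nonneg (Finset.sum_nonneg fun p _ => Real.log_natCast_nonneg _) (Nat.cast_nonneg _)

open scoped Classical in
/-- The exceptional set. -/
noncomputable def excSet {K ι : Type} [Field K] [NumberField K] [Fintype ι]
    (ω : Module.Basis ι ℤ (𝓞 K)) (X R : ℕ) : Finset ((ι → ℤ) × (ι → ℤ)) :=
  badSet ω X R ∪ ({0} : Finset (ι → ℤ)) ×ˢ box ι (X ^ 3)

open scoped Classical in
theorem card_excSet {K ι : Type} [Field K] [NumberField K] [Fintype ι]
    (ω : Module.Basis ι ℤ (𝓞 K)) {η : ℝ} (hη : 0 < η) (hη1 : η ≤ 1) :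
    ∃ C : ℝ, 0 < C ∧ ∀ X R : ℕ, 1 ≤ X → (R : ℝ) ≤ (X : ℝ) ^ (η / 2) →
      ((excSet ω X R).card : ℝ) ≤ C * ((X : ℝ) ^ (5 * Module.finrank ℚ K - 3) * (X : ℝ) ^ η +
        (X : ℝ) ^ (3 * Module.finrank ℚ K)) ∧
      ∀ (u v : ι → ℤ) (i₀ : ι), u ≠ 0 →
        (((excSet ω X R).filter (fun z => z.1 = u ∧ ∀ i, i ≠ i₀ → z.2 i = v i)).card : ℝ) ≤
          C * (X : ℝ) ^ η := by
  obtain ⟨C, hC, h⟩ := card_badSet ω hη hη1
  set d := Module.finrank ℚ K with hd
  have hcard : Fintype.card ι = d := by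
    rw [hd, ← RingOfIntegers.rank K, Module.finrank_eq_card_basis ω]
  refine ⟨C + 3 ^ d, by positivity, fun X R hX hR => ?_⟩
  have hX1 : (1 : ℝ) ≤ X := by exact_mod_cast hX
  have hX0 : (0 : ℝ) < X := by linarith
  obtain ⟨h1, h2⟩ := h X R hX hR
  constructor
  · have h3 : ((({0} : Finset (ι → ℤ)) ×ˢ box ι (X ^ 3)).card : ℝ) ≤ 3 ^ d * (X : ℝ) ^ (3 * d) := by
      rw [Finset.card_product, Finset.card_singleton, one_mul, card_box, hcard]
      push_cast
      have h10 : 2 * (X : ℝ) ^ 3 + 1 ≤ 3 * (X : ℝ) ^ 3 := by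
        have := one_le_pow₀ hX1 (n := 3)
        linarith
      calc (2 * (X : ℝ) ^ 3 + 1) ^ d ≤ (3 * (X : ℝ) ^ 3) ^ d :=
            pow_le_pow_left₀ (by positivity) h10 _
        _ = 3 ^ d * (X : ℝ) ^ (3 * d) := by rw [mul_pow, ← pow_mul]
    have h4 : ((excSet ω X R).card : ℝ) ≤ ((badSet ω X R).card : ℝ) +
        ((({0} : Finset (ι → ℤ)) ×ˢ box ι (X ^ 3)).card : ℝ) := by
      exact_mod_cast Finset.card_union_le _ _
    have h5 : 0 ≤ (X : ℝ) ^ (5 * d - 3) * (X : ℝ) ^ η := by positivity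
    have h6 : 0 ≤ (X : ℝ) ^ (3 * d) := by positivity
    have h7 : (0 : ℝ) ≤ 3 ^ d := by positivity
    nlinarith [mul_nonneg hC.le h6, mul_nonneg h7 h5]
  · intro u v i₀ hu
    have hsub : (excSet ω X R).filter (fun z => z.1 = u ∧ ∀ i, i ≠ i₀ → z.2 i = v i) ⊆
        (badSet ω X R).filter (fun z => z.1 = u ∧ ∀ i, i ≠ i₀ → z.2 i = v i) := by
      intro z hz
      rw [Finset.mem_filter] at hz ⊢
      refine ⟨?_, hz.2⟩
      rcases Finset.mem_union.1 hz.1 with h3 | h3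
      · exact h3
      · rw [Finset.mem_product, Finset.mem_singleton] at h3
        exact absurd (hz.2.1.symm.trans h3.1) hu
    calc _ ≤ (((badSet ω X R).filter (fun z => z.1 = u ∧ ∀ i, i ≠ i₀ → z.2 i = v i)).card : ℝ) := by
          exact_mod_cast Finset.card_le_card hsub
      _ ≤ C * (X : ℝ) ^ η := h2 u v i₀
      _ ≤ (C + 3 ^ d) * (X : ℝ) ^ η := by
          apply mul_le_mul_of_nonneg_right _ (by positivity)
          have : (0 : ℝ) ≤ 3 ^ d := by positivity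
          linarith

theorem almost_all {K ι : Type} [Field K] [NumberField K] [Fintype ι]
    (ω : Module.Basis ι ℤ (𝓞 K)) (g : ℕ) (hg : 1 ≤ g) {η : ℝ} (hη : 0 < η) :
    ∃ c₁ c₂ : ℝ, 0 < c₁ ∧ 0 < c₂ ∧ ∀ X : ℕ, 1 ≤ X → ∀ u v : ι → ℤ,
      (∀ i, |u i| ≤ (X : ℤ) ^ 2) → (∀ i, |v i| ≤ (X : ℤ) ^ 3) →
      (u, v) ∉ excSet ω X ⌊(X : ℝ) ^ (η / 2)⌋₊ →
    ∀ [(curveAB (lin ω u : K) (lin ω v : K)).IsElliptic]
      (F : Type) [Field F] [NumberField F] [DecidableEq F] [Algebra K F] [IsGalois K F]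
    (ρ : (F ≃ₐ[K] F) →* Matrix.GeneralLinearGroup (Fin g) ℤ) (M : Matrix (Fin g) (Fin g) ℤ)
    (P : Fin g → ((curveAB (lin ω u : K) (lin ω v : K)).baseChange F).toAffine.Point),
    Function.Injective ρ → IsPolForm ρ M → IsKPoint ρ P →
    Obstructed ρ M P c₂ ∨
      ((∀ n : ℕ, 1 ≤ n → n • P ≠ 0) ∧
        c₁ * (1 + hJ (curveAB (lin ω u : K) (lin ω v : K))) ≤ ntL M P ∧
        c₁ * (1 + Real.log X) ≤ ntL M P ∧ RamLe K F c₁ (ntL M P)) := by
  set d : ℝ := (Module.finrank ℚ K : ℝ) with hd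
  have hd1 : 1 ≤ d := by
    rw [hd]
    exact_mod_cast Module.finrank_pos (R := ℚ) (M := K)
  set κ : ℝ := 2 / η with hκd
  have hκ : 0 < κ := by positivity
  have hκη : 1 / κ = η / 2 := by
    rw [hκd, one_div_div]
  have hB := one_le_bdM ω
  obtain ⟨c₁, c₂, h₁, h₂, h⟩ := uniform_j K g hg 0 (d * (Real.log (6912 * bdM ω ^ 3) + 6 * κ))
  have hκd1 : 1 ≤ 1 + κ * d := by
    have : 0 ≤ κ * d := by positivity
    linarith
  refine ⟨c₁ / (1 + κ * d), c₂, by positivity, h₂, ?_⟩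
  intro X hX u v hu hv huv _ F _ _ _ _ _ ρ M P hρ hM hP
  have hX1 : (1 : ℝ) ≤ X := by exact_mod_cast hX
  have hX0 : (0 : ℝ) < X := by linarith
  unfold excSet at huv
  rw [Finset.mem_union, not_or] at huv
  obtain ⟨hbad, hzero⟩ := huv
  classical
  have hub : u ∈ box ι (X ^ 2) := mem_box.2 (by
    intro i
    push_cast
    exact hu i)
  have hvb : v ∈ box ι (X ^ 3) := mem_box.2 (by
    intro i
    push_cast
    exact hv i)
  have hu0 : u ≠ 0 := by
    intro h0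
    apply hzero
    rw [Finset.mem_product, Finset.mem_singleton]
    refine ⟨h0, ?_⟩
    convert hvb
  have ha : lin ω u ≠ 0 := fun h0 => hu0 (lin_eq_zero ω h0)
  have hΔ : (curveAB (lin ω u : K) (lin ω v : K)).Δ ≠ 0 :=
    (curveAB (lin ω u : K) (lin ω v : K)).isUnit_Δ.ne_zero
  rw [curveAB_Δ] at hΔ
  have hden : denJ (lin ω u) (lin ω v) ≠ 0 := by
    intro h0
    apply right_ne_zero_of_mul hΔ
    have h1 : ((denJ (lin ω u) (lin ω v) : 𝓞 K) : K) =
        4 * (lin ω u : K) ^ 3 + 27 * (lin ω v : K) ^ 2 := by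
      change algebraMap (𝓞 K) K (4 * lin ω u ^ 3 + 27 * lin ω v ^ 2) =
        4 * (algebraMap (𝓞 K) K (lin ω u)) ^ 3 + 27 * (algebraMap (𝓞 K) K (lin ω v)) ^ 2
      rw [map_add, map_mul, map_mul, map_pow, map_pow, map_ofNat, map_ofNat]
    rw [← h1, h0]
    simp
  have hprod : ⌊(X : ℝ) ^ (η / 2)⌋₊ < ∏ p ∈ goodPrimes (lin ω u) (lin ω v), p := by
    by_contra hle
    rw [not_lt] at hle
    apply hbad
    unfold badSet
    rw [Finset.mem_filter, Finset.mem_product]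
    refine ⟨⟨?_, ?_⟩, ha, hden, hle⟩
    · convert hub
    · convert hvb
  have hgood : (X : ℝ) ^ (1 / κ) ≤ ((∏ p ∈ goodPrimes (lin ω u) (lin ω v), p : ℕ) : ℝ) := by
    rw [hκη]
    exact (Nat.lt_of_floor_lt hprod).le
  have hva : ∀ w : InfinitePlace K, w (lin ω u : K) ≤ bdM ω * (X : ℝ) ^ 2 := fun w =>
    lin_val ω (by positivity) u (fun i => by
      have := box_abs hub i
      push_cast at this
      exact this) w
  have hvb' : ∀ w : InfinitePlace K, w (lin ω v : K) ≤ bdM ω * (X : ℝ) ^ 3 := fun w =>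
    lin_val ω (by positivity) v (fun i => by
      have := box_abs hvb i
      push_cast at this
      exact this) w
  obtain ⟨hc1, hc2, hc3⟩ := curve_cond (bdM ω) X κ hB hX1 hκ (lin ω u) (lin ω v) ha hva hvb' hgood
  rcases h (curveAB (lin ω u : K) (lin ω v : K)) hc2 hc1 F ρ hρ M hM.1 hM.2 P hP with hO | hO
  · exact Or.inl hO
  · right
    obtain ⟨hO1, hO2, hO3⟩ := hO
    have hJ0 : 0 ≤ hJ (curveAB (lin ω u : K) (lin ω v : K)) :=
      div_nonneg (zero_le_logHeight₁ _) (Nat.cast_nonneg _)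
    have hle : c₁ / (1 + κ * d) ≤ c₁ := div_le_self h₁.le hκd1
    refine ⟨hO1, ?_, ?_, ramLe_mono hle hO3⟩
    · exact (mul_le_mul_of_nonneg_right hle (by linarith)).trans hO2
    · have h5 : 1 + Real.log X ≤
          (1 + κ * d) * (1 + hJ (curveAB (lin ω u : K) (lin ω v : K))) := by
        have h6 : 0 ≤ κ * d := by positivity
        rw [← hd] at hc3
        nlinarith
      calc c₁ / (1 + κ * d) * (1 + Real.log X)
          ≤ c₁ / (1 + κ * d) * ((1 + κ * d) * (1 + hJ (curveAB (lin ω u : K) (lin ω v : K)))) :=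
            mul_le_mul_of_nonneg_left h5 (by positivity)
        _ = c₁ * (1 + hJ (curveAB (lin ω u : K) (lin ω v : K))) := by
            field_simp
        _ ≤ ntL M P := hO2

end LangForms
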