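import Pool.Agent.Lib_MP_f5471b_j.Rad
import Pool.Agent.Lib_MP_f5471b_j.JBase

/-!
# MP_f5471b_nt: heights for `y² = x³ + a x + b` with integral `a`, `b`
-/

namespace LangForms

open Height NumberField WeierstrassCurve Topology Filter

theorem aa_fin_le {K : Type} [Field K] [NumberField K] (v : FinitePlace K) (x : 𝓞 K) :
    v (x : K) ≤ 1 := by
  rw [← FinitePlace.norm_embedding_eq]
  exact FinitePlace.norm_le_one K v.maximalIdeal x

/-- The height of a vector of algebraic integers. -/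
theorem logHeight_int_le {K : Type} [Field K] [NumberField K] {ι : Type} [Finite ι]
    [Nonempty ι] (x : ι → 𝓞 K) (hx : (fun i => (x i : K)) ≠ 0) {B : ℝ}
    (h : ∀ (v : InfinitePlace K) i, v (x i : K) ≤ B) :
    logHeight (fun i => (x i : K)) ≤ Module.finrank ℚ K * Real.log B := by
  have h1 : mulHeight (fun i => (x i : K)) ≤ B ^ (Module.finrank ℚ K) := by
    rw [NumberField.mulHeight_eq hx]
    have hnn : ∀ v : InfinitePlace K, 0 ≤ ⨆ i, v (x i : K) := fun v =>
      Real.iSup_nonneg fun i => apply_nonneg v _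
    have ha : ∏ v : InfinitePlace K, (⨆ i, v (x i : K)) ^ v.mult ≤
        B ^ (Module.finrank ℚ K) := by
      rw [← InfinitePlace.sum_mult_eq, ← Finset.prod_pow_eq_pow_sum]
      apply Finset.prod_le_prod
      · intro v _
        exact pow_nonneg (hnn v) _
      · intro v _
        exact pow_le_pow_left₀ (hnn v) (ciSup_le (h v)) _
    have hb : 0 ≤ ∏ᶠ v : FinitePlace K, ⨆ i, v (x i : K) ∧
        ∏ᶠ v : FinitePlace K, ⨆ i, v (x i : K) ≤ 1 := by
      apply finprod_induction (fun t : ℝ => 0 ≤ t ∧ t ≤ 1)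
      · exact ⟨zero_le_one, le_refl _⟩
      · rintro s t ⟨hs, hs'⟩ ⟨ht, ht'⟩
        exact ⟨mul_nonneg hs ht, mul_le_one₀ hs' ht ht'⟩
      · intro v
        exact ⟨Real.iSup_nonneg fun i => apply_nonneg v _, ciSup_le fun i => aa_fin_le v _⟩
    have hc : 0 ≤ ∏ v : InfinitePlace K, (⨆ i, v (x i : K)) ^ v.mult :=
      Finset.prod_nonneg fun v _ => pow_nonneg (hnn v) _
    calc _ ≤ (∏ v : InfinitePlace K, (⨆ i, v (x i : K)) ^ v.mult) * 1 :=
          mul_le_mul_of_nonneg_left hb.2 hc
      _ ≤ B ^ (Module.finrank ℚ K) := by rw [mul_one]; exact ha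
  rw [logHeight_eq_log_mulHeight, ← Real.log_pow]
  exact Real.log_le_log (mulHeight_pos _) h1

theorem aa_sum_subtype {K : Type} [Field K] [NumberField K] (j : K) :
    ∃ T : Finset (FinitePlace K), (∀ v, v ∈ T ↔ 1 < v j) ∧
      ∑ᶠ v : {v : FinitePlace K // 1 < v j}, Real.log (plNorm v.1) =
        ∑ v ∈ T, Real.log (plNorm v) := by
  classical
  have hf := RadAux.finite_gt j
  have := Fintype.ofFinite {v : FinitePlace K // 1 < v j}
  have hf' : {v : FinitePlace K | 1 < v j}.Finite := hf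
  refine ⟨hf'.toFinset, fun v => by simp, ?_⟩
  rw [finsum_eq_sum_of_fintype]
  exact (Finset.sum_subtype hf'.toFinset (fun v => by simp) fun v => Real.log (plNorm v)).symm

/-- The norm of a pole is at most its contribution to the height. -/
theorem plNorm_le {K : Type} [Field K] [NumberField K] (v : FinitePlace K) (x y : 𝓞 K)
    (hx : x ≠ 0) (hy : y ≠ 0) (h : 1 < v ((x : K) / y)) : plNorm v ≤ v ((x : K) / y) := by
  have h1 := v.apply_mul_absNorm_pow_eq_one hx
  have h2 := v.apply_mul_absNorm_pow_eq_one hy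
  set N : ℝ := (v.maximalIdeal.asIdeal.absNorm : ℝ) with hN
  have hN1 : 1 < N := by
    rw [hN]
    exact_mod_cast HeightOneSpectrum.one_lt_absNorm v.maximalIdeal
  have hN0 : 0 < N := by linarith
  set α := multiplicity v.maximalIdeal.asIdeal (Ideal.span {x})
  set β := multiplicity v.maximalIdeal.asIdeal (Ideal.span {y})
  have hvx : v (x : K) = (N ^ α)⁻¹ := eq_inv_of_mul_eq_one_left h1
  have hvy : v (y : K) = (N ^ β)⁻¹ := eq_inv_of_mul_eq_one_left h2
  have hq : v ((x : K) / y) = N ^ β / N ^ α := by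
    rw [map_div₀, hvx, hvy]
    field_simp
  rw [hq] at h ⊢
  rw [one_lt_div (by positivity)] at h
  have h3 : α < β := (pow_lt_pow_iff_right₀ hN1).1 h
  change N ≤ _
  rw [le_div_iff₀ (by positivity), ← pow_succ']
  exact pow_le_pow_right₀ hN1.le h3

theorem rad_le_height {K : Type} [Field K] [NumberField K] (x y : 𝓞 K)
    (hx : x ≠ 0) (hy : y ≠ 0) :
    ∑ᶠ v : {v : FinitePlace K // 1 < v ((x : K) / y)}, Real.log (plNorm v.1) ≤
      logHeight₁ ((x : K) / y) := by
  obtain ⟨T, hT, hs⟩ := aa_sum_subtype ((x : K) / y)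
  rw [hs, NumberField.logHeight₁_eq]
  have h1 : ∑ᶠ v : FinitePlace K, Real.posLog (v ((x : K) / y)) =
      ∑ v ∈ T, Real.posLog (v ((x : K) / y)) := by
    refine finsum_eq_sum_of_support_subset _ fun v hv => ?_
    by_contra hvT
    apply hv
    have h2 : ¬ 1 < v ((x : K) / y) := fun h => hvT (by simpa using (hT v).2 h)
    rw [Real.posLog_eq_zero_iff, abs_of_nonneg (apply_nonneg v _)]
    exact not_lt.1 h2
  rw [h1]
  have h3 : 0 ≤ ∑ v : InfinitePlace K, v.mult * Real.posLog (v ((x : K) / y)) :=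
    Finset.sum_nonneg fun v _ => mul_nonneg (Nat.cast_nonneg _) Real.posLog_nonneg
  have h4 : ∑ v ∈ T, Real.log (plNorm v) ≤ ∑ v ∈ T, Real.posLog (v ((x : K) / y)) := by
    apply Finset.sum_le_sum
    intro v hv
    have hv1 := (hT v).1 hv
    have hp := plNorm_le v x y hx hy hv1
    have hp0 : 0 < plNorm v := by
      unfold plNorm
      exact_mod_cast (HeightOneSpectrum.one_lt_absNorm v.maximalIdeal).trans' zero_lt_one
    calc Real.log (plNorm v) ≤ Real.log (v ((x : K) / y)) := Real.log_le_log hp0 hp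
      _ ≤ Real.posLog (v ((x : K) / y)) := le_max_right _ _
  linarith

theorem exists_place {K : Type} [Field K] [NumberField K] (x y : 𝓞 K) (hy : y ≠ 0)
    (p : ℕ) (hp : p.Prime) (h1 : p ∣ (Algebra.norm ℤ y).natAbs)
    (h2 : ¬ p ∣ (Algebra.norm ℤ x).natAbs) :
    ∃ v : FinitePlace K, 1 < v ((x : K) / y) ∧ (p : ℝ) ≤ plNorm v ∧
      v.maximalIdeal.asIdeal.under ℤ = Ideal.span {(p : ℤ)} := by
  rw [← Ideal.absNorm_span_singleton] at h1 h2
  obtain ⟨P, hP, hPp, hPd⟩ := Ideal.exists_isMaximal_dvd_of_dvd_absNorm' hp _ h1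
  have hyP : y ∈ P := (Ideal.dvd_span_singleton).1 hPd
  have hpP : p ∣ Ideal.absNorm P := by
    have := Int.absNorm_under_dvd_absNorm P
    rw [hPp] at this
    simpa using this
  have hxP : x ∉ P := by
    intro h
    apply h2
    exact hpP.trans (Ideal.absNorm_dvd_absNorm_of_le ((Ideal.span_singleton_le_iff_mem _).2 h))
  have hP0 : P ≠ ⊥ := by
    intro h
    rw [h, Ideal.mem_bot] at hyP
    exact hy hyP
  set w : IsDedekindDomain.HeightOneSpectrum (𝓞 K) := ⟨P, hP.isPrime, hP0⟩ with hw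
  have hmax : (FinitePlace.mk w).maximalIdeal = w := FinitePlace.maximalIdeal_mk w
  refine ⟨FinitePlace.mk w, ?_, ?_, ?_⟩
  · have hx1 : FinitePlace.mk w (x : K) = 1 := by
      rw [FinitePlace.mk_apply]
      exact (FinitePlace.norm_eq_one_iff_notMem K w x).2 hxP
    have hy1 : FinitePlace.mk w (y : K) < 1 := by
      rw [FinitePlace.mk_apply]
      exact (FinitePlace.norm_lt_one_iff_mem K w y).2 hyP
    have hy0 : 0 < FinitePlace.mk w (y : K) := by
      rw [FinitePlace.pos_iff]
      exact_mod_cast hy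
    rw [map_div₀, hx1, one_lt_div hy0]
    exact hy1
  · unfold plNorm
    rw [hmax]
    have : 0 < Ideal.absNorm P := by
      have := HeightOneSpectrum.one_lt_absNorm w
      exact lt_trans zero_lt_one this
    exact_mod_cast Nat.le_of_dvd this hpP
  · rw [hmax]
    exact hPp

/-- The radical of the denominator is at least the product of the primes dividing the norm of
the denominator but not the norm of the numerator. -/
theorem rad_lower {K : Type} [Field K] [NumberField K] (x y : 𝓞 K) (hy : y ≠ 0)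
    (Q : Finset ℕ) (hQ : ∀ p ∈ Q, p.Prime ∧ p ∣ (Algebra.norm ℤ y).natAbs ∧
      ¬ p ∣ (Algebra.norm ℤ x).natAbs) :
    Real.log ((∏ p ∈ Q, p : ℕ) : ℝ) ≤
      ∑ᶠ v : {v : FinitePlace K // 1 < v ((x : K) / y)}, Real.log (plNorm v.1) := by
  classical
  obtain ⟨T, hT, hs⟩ := aa_sum_subtype ((x : K) / y)
  rw [hs]
  have key : ∀ p ∈ Q, ∃ v : FinitePlace K, 1 < v ((x : K) / y) ∧ (p : ℝ) ≤ plNorm v ∧
      v.maximalIdeal.asIdeal.under ℤ = Ideal.span {(p : ℤ)} := fun p hp =>
    exists_place x y hy p (hQ p hp).1 (hQ p hp).2.1 (hQ p hp).2.2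
  rcases Q.eq_empty_or_nonempty with hQe | ⟨p₀, hp₀⟩
  · subst hQe
    simp only [Finset.prod_empty, Nat.cast_one, Real.log_one]
    exact Finset.sum_nonneg fun v _ => RadAux.logN_nonneg v
  have : Nonempty (FinitePlace K) := ⟨(key p₀ hp₀).choose⟩
  choose! f hf1 hf2 hf3 using key
  have hinj : Set.InjOn f (Q : Set ℕ) := by
    intro p hp q hq hpq
    have h1 := hf3 p hp
    rw [hpq, hf3 q hq, Ideal.span_singleton_eq_span_singleton] at h1
    have h2 := Int.natAbs_eq_iff_associated.2 h1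
    simpa using h2.symm
  rw [Nat.cast_prod, Real.log_prod (fun p hp => by exact_mod_cast (hQ p hp).1.ne_zero)]
  calc ∑ p ∈ Q, Real.log (p : ℝ) ≤ ∑ p ∈ Q, Real.log (plNorm (f p)) := by
        apply Finset.sum_le_sum
        intro p hp
        exact Real.log_le_log (by exact_mod_cast (hQ p hp).1.pos) (hf2 p hp)
    _ = ∑ v ∈ Q.image f, Real.log (plNorm v) := (Finset.sum_image (f := fun v => Real.log (plNorm v)) hinj).symm
    _ ≤ ∑ v ∈ T, Real.log (plNorm v) := by
        apply Finset.sum_le_sum_of_subset_of_nonneg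
        · intro v hv
          obtain ⟨p, hp, rfl⟩ := Finset.mem_image.1 hv
          exact (hT _).2 (hf1 p hp)
        · intro v _ _
          exact RadAux.logN_nonneg v

end LangForms
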